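import Pool.Agent.Zk41.P4.Low

/-! The polynomials `X³ + k`, `k` not a cube, and Richert's constant. -/

set_option autoImplicit false

open Finset Polynomial

namespace Pool.Agent.Zk41.P4

open Pool.Agent.Y677.RSZ (rt)
open Pool.Agent.K3h19.RV (Lam)

/-- the polynomial `X³ + k` -/
noncomputable def PC (k : ℤ) : ℤ[X] := X ^ 3 + C k

lemma PC_eval (k : ℤ) (t : ℤ) : (PC k).eval t = t ^ 3 + k := by
  unfold PC
  simp

lemma PC_monic (k : ℤ) : (PC k).Monic := monic_X_pow_add_C k (by norm_num)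

lemma PC_deg (k : ℤ) : (PC k).natDegree = 3 := natDegree_X_pow_add_C

lemma PC_irr (k : ℤ) (hk : ¬ ∃ a : ℤ, a ^ 3 = k) : Irreducible (PC k) := by
  rw [Monic.irreducible_iff_roots_eq_zero_of_degree_le_three (PC_monic k) (by rw [PC_deg]; norm_num) (by rw [PC_deg])]
  rw [Multiset.eq_zero_iff_forall_notMem]
  intro x hx
  rw [mem_roots (PC_monic k).ne_zero, IsRoot.def, PC_eval] at hx
  apply hk
  exact ⟨-x, by linarith [show (-x) ^ 3 = -(x ^ 3) by ring]⟩

lemma PC_rt (k : ℤ) (p : ℕ) (hp : p.Prime) : rt (fun n => (PC k).eval n) p < p := by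
  classical
  unfold rt
  by_contra hcon
  push Not at hcon
  have h1 : (range p).filter (fun r : ℕ => (p : ℤ) ∣ (fun n => (PC k).eval n) (r : ℤ)) = range p := by
    apply eq_of_subset_of_card_le (filter_subset _ _)
    rw [card_range]
    exact hcon
  have h2 : ∀ r ∈ range p, (p : ℤ) ∣ (r : ℤ) ^ 3 + k := by
    intro r hr
    rw [← h1, mem_filter] at hr
    have := hr.2
    simp only [PC_eval] at this
    exact this
  have h3 := h2 0 (mem_range.2 hp.pos)
  have h4 := h2 1 (mem_range.2 hp.one_lt)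
  have h5 := dvd_sub h4 h3
  norm_num at h5
  exact hp.one_lt.ne' (Nat.dvd_one.1 (by exact_mod_cast h5))

/-- Richert's constant in its usual form -/
lemma lam_eq (r : ℕ) : r + 1 - Real.log (4 / (1 + 3 ^ (-(r : ℝ)))) / Real.log 3 = Lam r := by
  unfold Lam
  have h3 : 0 < Real.log 3 := Real.log_pos (by norm_num)
  have hp : (0 : ℝ) < 3 ^ r := by positivity
  have e1 : (4 : ℝ) / (1 + 3 ^ (-(r : ℝ))) = 3 ^ r / ((3 ^ r + 1) / 4) := by
    rw [Real.rpow_neg (by norm_num), Real.rpow_natCast]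
    field_simp
  rw [e1, Real.log_div hp.ne' (by positivity), Real.log_pow]
  field_simp
  ring

end Pool.Agent.Zk41.P4
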