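import Pool.Agent.K3h19.RV.Num

/-! Richert's weights, scaled. -/

set_option autoImplicit false

namespace Pool.Agent.Zk41.P4

open Real
open Pool.Agent.K3h19.RV (Lam richert)
open Pool.Agent.Y882.KW (int_eval)

/-- Richert's weights for numbers up to the power `D` of the scale -/
theorem richertD (r : ℕ) (hr : 1 ≤ r) (D τ : ℝ) (hD : 0 < D) (hτ : 0 < τ) (h : D < τ * Lam r) :
    ∃ υ lam S : ℝ, τ / 4 ≤ υ ∧ υ < τ ∧ 0 < lam ∧ D < S ∧ 1 / lam + S / υ ≤ r + 1 ∧
      ∫ x in (τ / 4)..υ, (lam - lam / υ * x) / (τ - x) / x < log (τ / (τ / 4) - 1) / τ := by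
  have hτ0 : 0 < τ / D := by positivity
  obtain ⟨υ, lam, S, h1, h2, h3, h4, h5, h6⟩ := richert r hr (τ / D) hτ0 (by
    rw [div_mul_eq_mul_div, lt_div_iff₀ hD, one_mul]
    exact h)
  have hυ0 : 0 < υ := by linarith [div_pos hτ0 (show (0 : ℝ) < 4 by norm_num)]
  have e1 : D * (τ / D) = τ := by field_simp
  refine ⟨D * υ, lam, D * S, ?_, ?_, h3, ?_, ?_, ?_⟩
  · have := mul_le_mul_of_nonneg_left h1 hD.le
    rw [← mul_div_assoc, e1] at this
    exact this
  · have := mul_lt_mul_of_pos_left h2 hD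
    rwa [e1] at this
  · nlinarith
  · rw [mul_div_mul_left _ _ hD.ne']
    exact h5
  · have hυτ : D * υ < τ := by
      have := mul_lt_mul_of_pos_left h2 hD
      rwa [e1] at this
    have hζυ : τ / 4 ≤ D * υ := by
      have := mul_le_mul_of_nonneg_left h1 hD.le
      rw [← mul_div_assoc, e1] at this
      exact this
    rw [int_eval lam (lam / (D * υ)) τ (τ / 4) (D * υ) (by positivity) hζυ hυτ]
    rw [int_eval lam (lam / υ) (τ / D) (τ / D / 4) υ (by positivity) h1 h2] at h6
    have g1 : D * υ / (τ / 4) = υ / (τ / D / 4) := by field_simp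
    have g2 : (τ - τ / 4) / (τ - D * υ) = (τ / D - τ / D / 4) / (τ / D - υ) := by
      rw [div_eq_div_iff (by linarith) (by linarith)]
      field_simp
    have g3 : τ / (τ / 4) = τ / D / (τ / D / 4) := by field_simp
    rw [g1, g2, g3]
    have h7 := mul_lt_mul_of_pos_left h6 (show 0 < 1 / D by positivity)
    refine lt_of_eq_of_lt ?_ (lt_of_lt_of_eq h7 ?_)
    · rw [mul_add]
      congr 1
      · field_simp
      · rw [← mul_assoc]
        congr 1
        field_simp
    · field_simp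

end Pool.Agent.Zk41.P4
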