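import Mathlib
set_option autoImplicit false
open Finset Filter Topology

namespace Pool.Agent.Zk41.P4

/-- the weight `1 / (n log n)` against `log log n` -/
theorem w_le (n : ℕ) (hn : 2 ≤ n) : 1 / (((n + 1 : ℕ) : ℝ) * Real.log ((n + 1 : ℕ) : ℝ)) ≤
    Real.log (Real.log ((n + 1 : ℕ) : ℝ)) - Real.log (Real.log (n : ℝ)) := by
  have hn2 : (2 : ℝ) ≤ n := by exact_mod_cast hn
  have hl : 0 < Real.log (n : ℝ) := Real.log_pos (by linarith)
  have hl1 : Real.log (n : ℝ) < Real.log ((n + 1 : ℕ) : ℝ) := by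
    apply Real.log_lt_log (by linarith)
    push_cast
    linarith
  have hl2 : 0 < Real.log ((n + 1 : ℕ) : ℝ) := hl.trans hl1
  have hn1 : (0 : ℝ) < ((n + 1 : ℕ) : ℝ) := by positivity
  have h1 : 1 - (Real.log ((n + 1 : ℕ) : ℝ) / Real.log (n : ℝ))⁻¹ ≤ Real.log (Real.log ((n + 1 : ℕ) : ℝ) / Real.log (n : ℝ)) :=
    Real.one_sub_inv_le_log_of_pos (by positivity)
  rw [Real.log_div hl2.ne' hl.ne'] at h1
  refine le_trans ?_ h1
  rw [inv_div]
  have h2 : 1 - (((n + 1 : ℕ) : ℝ) / n)⁻¹ ≤ Real.log (((n + 1 : ℕ) : ℝ) / n) :=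
    Real.one_sub_inv_le_log_of_pos (by positivity)
  rw [Real.log_div hn1.ne' (by positivity), inv_div] at h2
  have h3 : 1 - (n : ℝ) / ((n + 1 : ℕ) : ℝ) = 1 / ((n + 1 : ℕ) : ℝ) := by
    push_cast
    field_simp
    ring
  rw [h3] at h2
  have h4 : 1 - Real.log (n : ℝ) / Real.log ((n + 1 : ℕ) : ℝ) =
      (Real.log ((n + 1 : ℕ) : ℝ) - Real.log (n : ℝ)) / Real.log ((n + 1 : ℕ) : ℝ) := by
    field_simp
  rw [h4]
  calc 1 / (((n + 1 : ℕ) : ℝ) * Real.log ((n + 1 : ℕ) : ℝ)) = (1 / ((n + 1 : ℕ) : ℝ)) / Real.log ((n + 1 : ℕ) : ℝ) := by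
        rw [div_div]
    _ ≤ _ := div_le_div_of_nonneg_right h2 hl2.le

/-- partial summation -/
theorem abel_log (e : ℕ → ℝ) (κ : ℝ) (hκ : 0 ≤ κ) (A : ℕ) (hA : 2 ≤ A) (B : ℕ) (hAB : A ≤ B)
    (hE : ∀ n, A ≤ n → n ≤ B → |∑ j ∈ range (n + 1), e j| ≤ κ * n) :
    |∑ n ∈ Ioc A B, e n / (n * Real.log n)| ≤
      κ * (2 / Real.log ((A + 1 : ℕ) : ℝ) + (Real.log (Real.log ((B + 1 : ℕ) : ℝ)) - Real.log (Real.log ((A + 1 : ℕ) : ℝ)))) := by
  have hlog : ∀ n : ℕ, 2 ≤ n → 0 < Real.log (n : ℝ) := by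
    intro n hn
    apply Real.log_pos
    exact_mod_cast (by omega : 1 < n)
  obtain ⟨S, hS⟩ : ∃ S : ℕ → ℝ, ∀ n, S n = ∑ j ∈ range (n + 1), e j := ⟨_, fun _ => rfl⟩
  obtain ⟨w, hw⟩ : ∃ w : ℕ → ℝ, ∀ n : ℕ, w n = 1 / ((n : ℝ) * Real.log n) := ⟨_, fun _ => rfl⟩
  have hnw : ∀ n : ℕ, 2 ≤ n → (n : ℝ) * w n = 1 / Real.log n := by
    intro n hn
    rw [hw]
    have h0 : (n : ℝ) ≠ 0 := by exact_mod_cast (by omega : n ≠ 0)
    have := (hlog n hn).ne'
    field_simp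
  have hw0 : ∀ n : ℕ, 2 ≤ n → 0 ≤ w n := by
    intro n hn
    rw [hw]
    have := hlog n hn
    positivity
  have key : ∀ B : ℕ, A ≤ B → (∀ n, A ≤ n → n ≤ B → |S n| ≤ κ * n) →
      |∑ n ∈ Ioc A B, e n * w n - S B * w (B + 1)| ≤ κ * (2 / Real.log ((A + 1 : ℕ) : ℝ) - 1 / Real.log ((B + 1 : ℕ) : ℝ) +
        (Real.log (Real.log ((B + 1 : ℕ) : ℝ)) - Real.log (Real.log ((A + 1 : ℕ) : ℝ)))) := by
    intro B hAB
    induction B, hAB using Nat.le_induction with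
    | base =>
      intro h
      rw [Ioc_self, sum_empty, zero_sub, abs_neg, abs_mul, abs_of_nonneg (hw0 (A + 1) (by omega))]
      have h1 := h A le_rfl le_rfl
      have h2 : (A : ℝ) * w (A + 1) ≤ 1 / Real.log ((A + 1 : ℕ) : ℝ) := by
        rw [← hnw (A + 1) (by omega)]
        apply mul_le_mul_of_nonneg_right _ (hw0 (A + 1) (by omega))
        push_cast
        linarith
      calc |S A| * w (A + 1) ≤ κ * A * w (A + 1) := mul_le_mul_of_nonneg_right h1 (hw0 (A + 1) (by omega))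
        _ = κ * (A * w (A + 1)) := by ring
        _ ≤ κ * (1 / Real.log ((A + 1 : ℕ) : ℝ)) := mul_le_mul_of_nonneg_left h2 hκ
        _ = _ := by ring
    | succ B hAB ih =>
      intro h
      have h1 := ih (fun n h1 h2 => h n h1 (by omega))
      rw [← Finset.insert_Ioc_right_eq_Ioc_add_one hAB, sum_insert (by simp)]
      have hSB : S (B + 1) = S B + e (B + 1) := by
        rw [hS, hS, sum_range_succ _ (B + 1)]
      have h2 : e (B + 1) * w (B + 1) + ∑ n ∈ Ioc A B, e n * w n - S (B + 1) * w (B + 1 + 1) =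
          (∑ n ∈ Ioc A B, e n * w n - S B * w (B + 1)) + S (B + 1) * (w (B + 1) - w (B + 1 + 1)) := by
        rw [hSB]
        ring
      rw [h2]
      have h3 := h (B + 1) (by omega) le_rfl
      have hwB : w (B + 1 + 1) ≤ w (B + 1) := by
        rw [hw, hw]
        apply one_div_le_one_div_of_le
        · have := hlog (B + 1) (by omega)
          positivity
        · apply mul_le_mul
          · push_cast; linarith
          · apply Real.log_le_log (by positivity)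
            push_cast
            linarith
          · exact (hlog (B + 1) (by omega)).le
          · positivity
      have h4 : ((B + 1 : ℕ) : ℝ) * (w (B + 1) - w (B + 1 + 1)) ≤ 1 / Real.log ((B + 1 : ℕ) : ℝ) -
          1 / Real.log ((B + 1 + 1 : ℕ) : ℝ) +
          (Real.log (Real.log ((B + 1 + 1 : ℕ) : ℝ)) - Real.log (Real.log ((B + 1 : ℕ) : ℝ))) := by
        have g1 := hnw (B + 1) (by omega)
        have g2 := hnw (B + 1 + 1) (by omega)
        have g3 := w_le (B + 1) (by omega)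
        have g4 := hw (B + 1 + 1)
        have g5 : (((B + 1 + 1 : ℕ) : ℝ)) = ((B + 1 : ℕ) : ℝ) + 1 := by push_cast; ring
        have g6 : ((B + 1 : ℕ) : ℝ) * w (B + 1 + 1) = ((B + 1 + 1 : ℕ) : ℝ) * w (B + 1 + 1) - w (B + 1 + 1) := by
          rw [g5]
          ring
        rw [mul_sub, g1, g6, g2, g4]
        linarith
      have h5 : |S (B + 1) * (w (B + 1) - w (B + 1 + 1))| ≤ κ * (1 / Real.log ((B + 1 : ℕ) : ℝ) -
          1 / Real.log ((B + 1 + 1 : ℕ) : ℝ) +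
          (Real.log (Real.log ((B + 1 + 1 : ℕ) : ℝ)) - Real.log (Real.log ((B + 1 : ℕ) : ℝ)))) := by
        rw [abs_mul, abs_of_nonneg (show 0 ≤ w (B + 1) - w (B + 1 + 1) by linarith)]
        calc |S (B + 1)| * (w (B + 1) - w (B + 1 + 1)) ≤ κ * ((B + 1 : ℕ) : ℝ) * (w (B + 1) - w (B + 1 + 1)) :=
              mul_le_mul_of_nonneg_right h3 (by linarith)
          _ = κ * (((B + 1 : ℕ) : ℝ) * (w (B + 1) - w (B + 1 + 1))) := by ring
          _ ≤ _ := mul_le_mul_of_nonneg_left h4 hκ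
      calc _ ≤ |∑ n ∈ Ioc A B, e n * w n - S B * w (B + 1)| + |S (B + 1) * (w (B + 1) - w (B + 1 + 1))| := abs_add_le _ _
        _ ≤ _ := add_le_add h1 h5
        _ = _ := by ring
  have hE' : ∀ n, A ≤ n → n ≤ B → |S n| ≤ κ * n := by
    intro n h1 h2
    rw [hS]
    exact hE n h1 h2
  have h1 := key B hAB hE'
  have h2 : ∑ n ∈ Ioc A B, e n / (n * Real.log n) = ∑ n ∈ Ioc A B, e n * w n := by
    apply sum_congr rfl
    intro n _
    rw [hw]
    ring
  rw [h2]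
  have h3 : |S B * w (B + 1)| ≤ κ * (1 / Real.log ((B + 1 : ℕ) : ℝ)) := by
    rw [abs_mul, abs_of_nonneg (hw0 (B + 1) (by omega))]
    have g1 : (B : ℝ) * w (B + 1) ≤ 1 / Real.log ((B + 1 : ℕ) : ℝ) := by
      rw [← hnw (B + 1) (by omega)]
      apply mul_le_mul_of_nonneg_right _ (hw0 (B + 1) (by omega))
      push_cast
      linarith
    calc |S B| * w (B + 1) ≤ κ * B * w (B + 1) := mul_le_mul_of_nonneg_right (hE' B hAB le_rfl) (hw0 (B + 1) (by omega))
      _ = κ * (B * w (B + 1)) := by ring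
      _ ≤ _ := mul_le_mul_of_nonneg_left g1 hκ
  calc |∑ n ∈ Ioc A B, e n * w n| = |(∑ n ∈ Ioc A B, e n * w n - S B * w (B + 1)) + S B * w (B + 1)| := by
        congr 1
        ring
    _ ≤ |∑ n ∈ Ioc A B, e n * w n - S B * w (B + 1)| + |S B * w (B + 1)| := abs_add_le _ _
    _ ≤ _ := add_le_add h1 h3
    _ = _ := by ring

end Pool.Agent.Zk41.P4
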