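import Pool.Agent.Zk41.P4.Sz

/-! The two theorems on Richert's numbers together, for sets of integers. -/

set_option autoImplicit false

open Finset Polynomial

namespace Pool.Agent.Zk41.P4

open Pool.Agent.Y677.RSZ (rt)
open Pool.Agent.K3h19.RV (Lam)

theorem Lam_zero : 0 ≤ Lam 0 ∧ Lam 0 ≤ 1 := by
  have h3 : 0 < Real.log 3 := Real.log_pos (by norm_num)
  have e : Lam 0 = 1 - Real.log 2 / Real.log 3 := by
    unfold Lam
    have : ((3 : ℝ) ^ 0 + 1) / 4 = 2⁻¹ := by norm_num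
    rw [this, Real.log_inv]
    ring
  have h4 : 0 ≤ Real.log 2 / Real.log 3 := div_nonneg (Real.log_nonneg (by norm_num)) h3.le
  have h5 : Real.log 2 / Real.log 3 ≤ 1 := by
    rw [div_le_one h3]
    exact Real.log_le_log (by norm_num) (by norm_num)
  rw [e]
  constructor <;> linarith

theorem Lam_nonneg (r : ℕ) : 0 ≤ Lam r := by
  by_cases h : 1 ≤ r
  · linarith [Lam_pos r h]
  · have h0 : r = 0 := by omega
    subst h0
    exact Lam_zero.1

/-- the exponent and the number of prime factors are positive -/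
theorem cond_pos (g r : ℕ) (hg : 2 ≤ g) (θ : ℝ) (hθ1 : θ ≤ 1) (hθ : (g : ℝ) < θ * Lam r) : 0 < θ ∧ 1 ≤ r := by
  have hg2 : (2 : ℝ) ≤ g := by exact_mod_cast hg
  have hL := Lam_nonneg r
  constructor
  · by_contra h
    push Not at h
    nlinarith
  · by_contra h
    have h0 : r = 0 := by omega
    subst h0
    have := Lam_zero
    nlinarith

open Classical in
theorem rich_int (F : ℤ[X]) (hF : F.Monic) (hirr : Irreducible F) (hg : 2 ≤ F.natDegree)
    (hρ : ∀ p : ℕ, p.Prime → rt (fun n => F.eval n) p < p) (r : ℕ) (θ : ℝ) (hθ1 : θ ≤ 1)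
    (hθ : F.natDegree < θ * Lam r) :
    ∃ δ c : ℝ, 0 < δ ∧ 0 < c ∧ ∀ (l : ℕ) (κ ρ : ℝ), 0 < κ → 0 < ρ → ∃ B N₀ : ℕ, ∀ N : ℕ, N₀ ≤ N →
      ∀ (Y : ℤ) (H : ℕ), -(N : ℤ) ≤ Y → Y + H ≤ N → (N : ℝ) ^ θ ≤ H →
        c * (H / Real.log H) ≤ (((Ioc Y (Y + H)).filter (fun x : ℤ => (F.eval x).natAbs.primeFactorsList.length ≤ r ∧
          ∀ p : ℕ, p.Prime → (p : ℤ) ∣ F.eval x → (N : ℝ) ^ δ ≤ p)).card : ℝ) ∧
        ∀ S ⊆ Ioc Y (Y + H), (∀ x ∈ S, ∀ p : ℕ, p.Prime → (p : ℤ) ∣ F.eval x → (N : ℝ) ^ ρ ≤ p) →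
          κ * (H / Real.log H) ≤ S.card →
          ∃ (a : ℤ) (d : ℕ), 1 ≤ d ∧ (d : ℝ) ≤ Real.log N ^ B ∧ ∀ i < l, a + i * d ∈ S := by
  obtain ⟨hθ0, hr1⟩ := cond_pos F.natDegree r hg θ hθ1 hθ
  obtain ⟨δ, c, hδ, hc, N₁, hlow⟩ := richert_win F hF hirr hg hρ r hr1 θ hθ1 hθ
  refine ⟨δ, c, hδ, hc, fun l κ ρ hκ hρ0 => ?_⟩
  obtain ⟨B, N₂, hsz⟩ := rich_sz F hF hirr hg hρ ρ θ κ hρ0 hθ0 hκ l
  refine ⟨B, N₁ + N₂, fun N hN Y H hY1 hY2 hH => ?_⟩
  have hl := hlow N (by omega) Y H hY1 hY2 hH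
  refine ⟨hl.trans ?_, fun S hS hSr hSc => ?_⟩
  · have h1 : (RP F r δ N Y H).card ≤ ((Ioc Y (Y + H)).filter (fun x : ℤ => (F.eval x).natAbs.primeFactorsList.length ≤ r ∧
          ∀ p : ℕ, p.Prime → (p : ℤ) ∣ F.eval x → (N : ℝ) ^ δ ≤ p)).card := by
      apply card_le_card_of_injOn (fun j : ℕ => Y + (j : ℤ))
      · intro j hj
        rw [mem_coe] at hj
        unfold RP at hj
        rw [mem_filter, mem_Icc] at hj
        obtain ⟨⟨h1, h2⟩, h3, h4⟩ := hj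
        rw [mem_coe, mem_filter, mem_Ioc]
        exact ⟨⟨show Y < Y + (j : ℤ) by omega, show Y + (j : ℤ) ≤ Y + H by omega⟩, h3,
          fun p hp hpd => h4 p hp (Int.natCast_dvd.1 hpd)⟩
      · intro i _ j _ h
        have h1 : Y + (i : ℤ) = Y + (j : ℤ) := h
        omega
    exact_mod_cast h1
  · obtain ⟨S', hS'⟩ : ∃ S' : Finset ℕ, S' = (Icc 1 H).filter (fun j : ℕ => Y + (j : ℤ) ∈ S) := ⟨_, rfl⟩
    have hmem : ∀ j ∈ S', Y + (j : ℤ) ∈ S := by
      intro j hj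
      rw [hS', mem_filter] at hj
      exact hj.2
    have hcard : S'.card = S.card := by
      apply card_bij (fun (j : ℕ) _ => Y + (j : ℤ))
      · intro j hj
        exact hmem j hj
      · intro i _ j _ h
        have h1 : Y + (i : ℤ) = Y + (j : ℤ) := h
        omega
      · intro x hx
        have h1 := mem_Ioc.1 (hS hx)
        refine ⟨(x - Y).toNat, ?_, ?_⟩
        · rw [hS', mem_filter, mem_Icc]
          have e : Y + (((x - Y).toNat : ℕ) : ℤ) = x := by omega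
          rw [e]
          exact ⟨⟨by omega, by omega⟩, hx⟩
        · show Y + (((x - Y).toNat : ℕ) : ℤ) = x
          omega
    obtain ⟨a, d, hd1, hd2, hAP⟩ := hsz N (by omega) Y H hY1 hY2 hH S'
      (by rw [hS']; exact filter_subset _ _)
      (fun j hj p hp hpd => hSr _ (hmem j hj) p hp (Int.natCast_dvd.2 hpd))
      (by rw [hcard]; exact hSc)
    refine ⟨Y + a, d, hd1, hd2, fun i hi => ?_⟩
    have h4 := hmem _ (hAP i hi)
    have e : Y + (a : ℤ) + i * d = Y + ((a + i * d : ℕ) : ℤ) := by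
      push_cast
      ring
    rw [e]
    exact h4

end Pool.Agent.Zk41.P4
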