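import Pool.Agent.H474R2.GE.FA
import Pool.Agent.Y677.RSZ.Stm

/-! The local factors of an irreducible polynomial: the exact order of the sieve product. -/

set_option autoImplicit false

namespace Pool.Agent.Zk41.P4

open Finset Polynomial Filter
open Pool.Agent.Y677.RSZ (rt)

theorem rho_rt (F : ℤ[X]) (p : ℕ) : Pool.Agent.H474R2.PG.rho F p = rt (fun n => F.eval n) p := rfl

theorem inv_sq_le (Z : ℕ) : ∑ p ∈ (Icc 1 Z).filter Nat.Prime, (1 / (p : ℝ) ^ 2) ≤ 2 := by
  calc ∑ p ∈ (Icc 1 Z).filter Nat.Prime, (1 / (p : ℝ) ^ 2) ≤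
      ∑ p ∈ Icc 1 Z, (1 / (p : ℝ) ^ 2) :=
        sum_le_sum_of_subset_of_nonneg (filter_subset _ _) (fun _ _ _ => by positivity)
    _ ≤ 2 := by
        rcases Nat.eq_zero_or_pos Z with h0 | h0
        · subst h0
          simp
        have h4 : ∀ n : ℕ, 1 ≤ n → ∑ p ∈ Icc 1 n, (1 / (p : ℝ) ^ 2) ≤ 2 - 1 / (n : ℝ) := by
          intro n hn
          induction n, hn using Nat.le_induction with
          | base => norm_num
          | succ n hn ih =>
            rw [sum_Icc_succ_top (by omega)]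
            have hn0 : (0 : ℝ) < n := by exact_mod_cast hn
            have h5 : 1 / (((n + 1 : ℕ) : ℝ)) ^ 2 ≤ 1 / (n : ℝ) - 1 / ((n + 1 : ℕ) : ℝ) := by
              push_cast
              rw [div_sub_div _ _ hn0.ne' (by positivity),
                div_le_div_iff₀ (by positivity) (by positivity)]
              nlinarith
            linarith
        have h5 := h4 Z h0
        have : (0 : ℝ) < 1 / Z := by positivity
        linarith

/-- the product of the local factors is of the order `1 / log Z` -/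
theorem loc_irr (F : ℤ[X]) (hirr : Irreducible F) (hd : 0 < F.natDegree) (g : ℕ) (hg : 1 ≤ g)
    (hρ : ∀ p : ℕ, p.Prime → rt (fun n => F.eval n) p ≤ g ∧ rt (fun n => F.eval n) p < p) :
    ∃ c C : ℝ, 0 < c ∧ 0 < C ∧ ∀ Z : ℕ, 3 ≤ Z →
      c / Real.log Z ≤ ∏ p ∈ (Icc 1 Z).filter Nat.Prime, (1 - (rt (fun n => F.eval n) p : ℝ) / p) ∧
      ∏ p ∈ (Icc 1 Z).filter Nat.Prime, (1 - (rt (fun n => F.eval n) p : ℝ) / p) ≤ C / Real.log Z := by
  obtain ⟨C, hC0, hC⟩ := Pool.Agent.H474R2.GE.mertens_rho F hirr hd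
  have hg1 : (1 : ℝ) ≤ g := by exact_mod_cast hg
  obtain ⟨K, hK⟩ : ∃ K : ℝ, K = 2 * (g : ℝ) ^ 2 + 4 * (g : ℝ) ^ 2 * Real.log (2 * g) := ⟨_, rfl⟩
  have hl2g : 0 ≤ Real.log (2 * g) := Real.log_nonneg (by linarith)
  have hK0 : 0 ≤ K := by rw [hK]; positivity
  refine ⟨Real.exp (-(C + 2 * K)), Real.exp C, Real.exp_pos _, Real.exp_pos _, fun Z hZ => ?_⟩
  have hZr : (3 : ℝ) ≤ Z := by exact_mod_cast hZ
  have h1 := abs_le.1 (hC Z hZr)
  have hlZ : 0 < Real.log Z := Real.log_pos (by linarith)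
  have hPR : Pool.Agent.H474R2.PG.PR (Z : ℝ) = (Icc 1 Z).filter Nat.Prime := by
    unfold Pool.Agent.H474R2.PG.PR
    rw [Nat.floor_natCast]
  unfold Pool.Agent.H474R2.PG.Sg at h1
  rw [hPR] at h1
  simp_rw [rho_rt] at h1
  obtain ⟨ρ, hρd⟩ : ∃ ρ : ℕ → ℕ, ρ = rt (fun n => F.eval n) := ⟨_, rfl⟩
  rw [← hρd] at h1 hρ ⊢
  constructor
  · have h2 : ∀ p ∈ (Icc 1 Z).filter Nat.Prime,
        Real.exp (-((ρ p : ℝ) / p) - K * (1 / (p : ℝ) ^ 2)) ≤ 1 - (ρ p : ℝ) / p := by
      intro p hp
      have hpp := (mem_filter.1 hp).2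
      have hp0 : (0 : ℝ) < p := by exact_mod_cast hpp.pos
      have hr2 : (ρ p : ℝ) ≤ g := by exact_mod_cast (hρ p hpp).1
      have hr3 : (ρ p : ℝ) + 1 ≤ p := by exact_mod_cast (hρ p hpp).2
      have hr0 : (0 : ℝ) ≤ ρ p := Nat.cast_nonneg _
      have hx0 : 0 ≤ (ρ p : ℝ) / p := by positivity
      by_cases hbig : (p : ℝ) ≤ 2 * g
      · have h3 : 1 / (2 * (g : ℝ)) ≤ 1 - (ρ p : ℝ) / p := by
          have h4 : 1 / (p : ℝ) ≤ 1 - (ρ p : ℝ) / p := by
            rw [le_sub_iff_add_le, ← add_div, div_le_one hp0]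
            linarith
          refine le_trans ?_ h4
          exact one_div_le_one_div_of_le hp0 hbig
        refine le_trans ?_ h3
        rw [one_div (2 * (g : ℝ)), ← Real.exp_log (show (0 : ℝ) < 2 * g by positivity), ← Real.exp_neg]
        apply Real.exp_le_exp.2
        have h4 : Real.log (2 * g) ≤ K * (1 / (p : ℝ) ^ 2) := by
          rw [mul_one_div, le_div_iff₀ (by positivity)]
          have h5 : (p : ℝ) ^ 2 ≤ 4 * (g : ℝ) ^ 2 := by nlinarith
          have h6 := mul_le_mul_of_nonneg_left h5 hl2g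
          rw [hK]
          nlinarith [sq_nonneg (g : ℝ)]
        linarith
      · push Not at hbig
        set x := (ρ p : ℝ) / p with hxdef
        have hx : x ≤ 1 / 2 := by
          rw [hxdef, div_le_iff₀ hp0]
          linarith
        have hx2 : x ^ 2 ≤ (g : ℝ) ^ 2 * (1 / (p : ℝ) ^ 2) := by
          rw [hxdef, div_pow, mul_one_div]
          apply div_le_div_of_nonneg_right _ (by positivity)
          exact pow_le_pow_left₀ hr0 hr2 2
        have h1x : 0 < 1 - x := by linarith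
        rw [← Real.le_log_iff_exp_le h1x]
        have h3 := Real.one_sub_inv_le_log_of_pos h1x
        have h4 : 1 - (1 - x)⁻¹ = - (x / (1 - x)) := by
          field_simp
          ring
        have h5 : -x - 2 * x ^ 2 ≤ Real.log (1 - x) := by
          refine le_trans ?_ h3
          rw [h4]
          have h5 : x / (1 - x) ≤ x + 2 * x ^ 2 := by
            rw [div_le_iff₀ h1x]
            nlinarith [mul_nonneg (mul_nonneg hx0 hx0) (show 0 ≤ 1 - 2 * x by linarith)]
          linarith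
        have h6 : 2 * (g : ℝ) ^ 2 * (1 / (p : ℝ) ^ 2) ≤ K * (1 / (p : ℝ) ^ 2) := by
          apply mul_le_mul_of_nonneg_right _ (by positivity)
          rw [hK]
          have : 0 ≤ 4 * (g : ℝ) ^ 2 * Real.log (2 * g) := by positivity
          linarith
        linarith
    calc Real.exp (-(C + 2 * K)) / Real.log Z = Real.exp (-(Real.log (Real.log Z)) - C - 2 * K) := by
          rw [show -(Real.log (Real.log Z)) - C - 2 * K = -(C + 2 * K) - Real.log (Real.log Z) by ring,
            Real.exp_sub, Real.exp_log hlZ]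
      _ ≤ Real.exp (∑ p ∈ (Icc 1 Z).filter Nat.Prime,
          (-((ρ p : ℝ) / p) - K * (1 / (p : ℝ) ^ 2))) := by
          apply Real.exp_le_exp.2
          rw [sum_sub_distrib, sum_neg_distrib, ← mul_sum]
          have h3 := mul_le_mul_of_nonneg_left (inv_sq_le Z) hK0
          linarith [h1.2]
      _ = ∏ p ∈ (Icc 1 Z).filter Nat.Prime,
          Real.exp (-((ρ p : ℝ) / p) - K * (1 / (p : ℝ) ^ 2)) := Real.exp_sum _ _
      _ ≤ _ := Finset.prod_le_prod (fun _ _ => (Real.exp_pos _).le) h2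
  · calc ∏ p ∈ (Icc 1 Z).filter Nat.Prime, (1 - (ρ p : ℝ) / p) ≤
        ∏ p ∈ (Icc 1 Z).filter Nat.Prime, Real.exp (-((ρ p : ℝ) / p)) := by
          apply Finset.prod_le_prod
          · intro p hp
            have hpp := (mem_filter.1 hp).2
            have hp0 : (0 : ℝ) < p := by exact_mod_cast hpp.pos
            have hr3 : (ρ p : ℝ) + 1 ≤ p := by exact_mod_cast (hρ p hpp).2
            rw [sub_nonneg, div_le_one hp0]
            linarith
          · intro p _
            have := Real.add_one_le_exp (-((ρ p : ℝ) / p))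
            linarith
      _ = Real.exp (∑ p ∈ (Icc 1 Z).filter Nat.Prime, (-((ρ p : ℝ) / p))) := (Real.exp_sum _ _).symm
      _ ≤ Real.exp (C - Real.log (Real.log Z)) := by
          apply Real.exp_le_exp.2
          rw [sum_neg_distrib]
          linarith [h1.1]
      _ = Real.exp C / Real.log Z := by rw [Real.exp_sub, Real.exp_log hlZ]

end Pool.Agent.Zk41.P4
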