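import Mathlib
import Pool.Agent.Y677.RSZ.Eng1

/-! The squares of the primes which divide values of a polynomial. -/

set_option autoImplicit false

namespace Pool.Agent.Zk41.P4

open Finset Polynomial
open Pool.Agent.Y677.RSZ (rt)

/-- the members of one class in an interval -/
theorem class_cnt (m : ℕ) (hm : 0 < m) (H : ℕ) (s : Finset ℕ) (hs : s ⊆ Icc 1 H)
    (h : ∀ x ∈ s, ∀ y ∈ s, (m : ℤ) ∣ (x : ℤ) - y) : (s.card : ℝ) ≤ H / m + 1 := by
  have hm0 : (0 : ℝ) < m := by exact_mod_cast hm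
  rcases s.eq_empty_or_nonempty with h0 | ⟨x0, hx0⟩
  · rw [h0]
    simp only [card_empty, Nat.cast_zero]
    positivity
  have h1 : s.card ≤ H / m + 1 := by
    have h2 : s.card ≤ (range (H / m + 1)).card := by
      apply card_le_card_of_injOn (fun x => x / m)
      · intro x hx
        rw [mem_coe] at hx
        have := mem_Icc.1 (hs hx)
        rw [mem_coe, mem_range]
        exact Nat.lt_succ_of_le (Nat.div_le_div_right this.2)
      · intro x hx y hy hxy
        rw [mem_coe] at hx hy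
        have hxy' : x / m = y / m := hxy
        have h3 := h x hx y hy
        have h4 : x % m = y % m := by
          have h5 : (x : ℤ) ≡ y [ZMOD m] := (Int.modEq_iff_dvd.2 (h y hy x hx))
          have h6 := (Int.natCast_modEq_iff (n := m)).1 h5
          exact h6
        have h7 := Nat.div_add_mod x m
        have h8 := Nat.div_add_mod y m
        rw [hxy', h4] at h7
        omega
    rwa [card_range] at h2
  calc (s.card : ℝ) ≤ ((H / m + 1 : ℕ) : ℝ) := by exact_mod_cast h1
    _ = ((H / m : ℕ) : ℝ) + 1 := by push_cast; ring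
    _ ≤ _ := by
        have := @Nat.cast_div_le ℝ _ _ _ H m
        linarith

/-- roots modulo the square of a prime -/
theorem sq_class (F : ℤ[X]) (c : ℤ) (U W : ℤ[X]) (hUW : U * F + W * derivative F = C c) (q : ℕ) (hq : q.Prime)
    (hqc : ¬ (q : ℤ) ∣ c) (n n' : ℤ) (h1 : ((q ^ 2 : ℕ) : ℤ) ∣ F.eval n) (h2 : ((q ^ 2 : ℕ) : ℤ) ∣ F.eval n')
    (h3 : (q : ℤ) ∣ n' - n) : ((q ^ 2 : ℕ) : ℤ) ∣ n' - n := by
  have hqZ : Prime (q : ℤ) := Nat.prime_iff_prime_int.1 hq
  -- Taylor
  obtain ⟨k, hk⟩ : ∃ k : ℤ, F.eval n' = F.eval n + (derivative F).eval n * (n' - n) + k * (n' - n) ^ 2 := by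
    obtain ⟨k, hk⟩ := F.binomExpansion n (n' - n)
    refine ⟨k, ?_⟩
    rw [← hk]
    congr 1
    ring
  have hder : ¬ (q : ℤ) ∣ (derivative F).eval n := by
    intro hd
    apply hqc
    have h4 : (q : ℤ) ∣ F.eval n := by
      refine dvd_trans ?_ h1
      push_cast
      exact dvd_pow_self _ (by norm_num)
    have h5 := congrArg (fun P => P.eval n) hUW
    simp only [eval_add, eval_mul, eval_C] at h5
    rw [← h5]
    exact dvd_add (h4.mul_left _) (hd.mul_left _)
  have h4 : ((q ^ 2 : ℕ) : ℤ) ∣ (n' - n) * ((derivative F).eval n + k * (n' - n)) := by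
    have e : (n' - n) * ((derivative F).eval n + k * (n' - n)) = F.eval n' - F.eval n := by
      rw [hk]
      ring
    rw [e]
    exact dvd_sub h2 h1
  have h5 : ¬ (q : ℤ) ∣ (derivative F).eval n + k * (n' - n) := by
    intro h6
    exact hder ((dvd_add_left (h3.mul_left k)).1 h6)
  have h6 : IsCoprime ((q ^ 2 : ℕ) : ℤ) ((derivative F).eval n + k * (n' - n)) := by
    push_cast
    apply IsCoprime.pow_left
    exact (Prime.coprime_iff_not_dvd hqZ).2 h5
  exact h6.dvd_of_dvd_mul_right h4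

open Classical in
/-- the number of the `j` in an interval with `q² ∣ F(N + j)` -/
theorem sq_cnt (F : ℤ[X]) (c : ℤ) (U W : ℤ[X]) (hUW : U * F + W * derivative F = C c) (q : ℕ) (hq : q.Prime)
    (hqc : ¬ (q : ℤ) ∣ c) (g : ℕ) (hg : rt (fun n => F.eval n) q ≤ g) (N : ℤ) (H : ℕ) :
    (((Icc 1 H).filter (fun j : ℕ => ((q ^ 2 : ℕ) : ℤ) ∣ F.eval (N + j))).card : ℝ) ≤
      g * (H * (1 / (q : ℝ) ^ 2) + 1) := by
  have hq0 : (0 : ℤ) < q := by exact_mod_cast hq.pos
  obtain ⟨R, hR⟩ : ∃ R : Finset ℕ, R = (range q).filter (fun r : ℕ => (q : ℤ) ∣ F.eval (r : ℤ)) := ⟨_, rfl⟩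
  have hRc : R.card ≤ g := by rw [hR]; exact hg
  have hcls : ∀ x : ℤ, (q : ℤ) ∣ x - ((x % q).toNat : ℤ) := by
    intro x
    rw [Int.toNat_of_nonneg (Int.emod_nonneg _ hq0.ne')]
    exact Int.dvd_self_sub_emod
  have hsub : (Icc 1 H).filter (fun j : ℕ => ((q ^ 2 : ℕ) : ℤ) ∣ F.eval (N + j)) ⊆
      R.biUnion (fun r => (Icc 1 H).filter (fun j : ℕ => ((q ^ 2 : ℕ) : ℤ) ∣ F.eval (N + j) ∧ (q : ℤ) ∣ (N + j) - r)) := by
    intro j hj
    rw [mem_filter] at hj
    rw [mem_biUnion]
    refine ⟨((N + j) % q).toNat, ?_, ?_⟩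
    · rw [hR, mem_filter, mem_range]
      constructor
      · have h1 := Int.emod_lt_of_pos (N + j) hq0
        have h2 := Int.emod_nonneg (N + j) hq0.ne'
        omega
      · have h1 : (q : ℤ) ∣ F.eval (N + j) := by
          refine dvd_trans ?_ hj.2
          push_cast
          exact dvd_pow_self _ (by norm_num)
        have h2 : (N + j : ℤ) - (((N + j) % q).toNat : ℤ) ∣ F.eval (N + j) - F.eval (((N + j) % q).toNat : ℤ) :=
          sub_dvd_eval_sub _ _ _
        exact (dvd_sub_right h1).1 ((hcls _).trans h2)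
    · rw [mem_filter]
      exact ⟨hj.1, hj.2, hcls _⟩
  have hone : ∀ r ∈ R, (((Icc 1 H).filter (fun j : ℕ => ((q ^ 2 : ℕ) : ℤ) ∣ F.eval (N + j) ∧ (q : ℤ) ∣ (N + j) - r)).card : ℝ) ≤
      H * (1 / (q : ℝ) ^ 2) + 1 := by
    intro r _
    refine (class_cnt (q ^ 2) (pow_pos hq.pos 2) H _ (filter_subset _ _) ?_).trans (le_of_eq ?_)
    · intro x hx y hy
      rw [mem_filter] at hx hy
      have h3 : (q : ℤ) ∣ (N + x) - (N + y) := by
        have := dvd_sub hx.2.2 hy.2.2
        have e : (N + x : ℤ) - r - (N + y - r) = N + x - (N + y) := by ring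
        rwa [e] at this
      have h4 := sq_class F c U W hUW q hq hqc (N + y) (N + x) hy.2.1 hx.2.1 h3
      have e : (N + x : ℤ) - (N + y) = x - y := by ring
      rwa [e] at h4
    · push_cast
      ring
  have h1 : (((Icc 1 H).filter (fun j : ℕ => ((q ^ 2 : ℕ) : ℤ) ∣ F.eval (N + j))).card : ℝ) ≤
      ∑ r ∈ R, (((Icc 1 H).filter (fun j : ℕ => ((q ^ 2 : ℕ) : ℤ) ∣ F.eval (N + j) ∧ (q : ℤ) ∣ (N + j) - r)).card : ℝ) := by
    exact_mod_cast (card_le_card hsub).trans card_biUnion_le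
  refine h1.trans ((sum_le_sum hone).trans ?_)
  rw [sum_const, nsmul_eq_mul]
  apply mul_le_mul_of_nonneg_right (by exact_mod_cast hRc) (by positivity)

/-- an irreducible polynomial and its derivative -/
theorem bez (F : ℤ[X]) (hF : F.Monic) (hirr : Irreducible F) :
    ∃ (c : ℤ) (U W : ℤ[X]), c ≠ 0 ∧ U * F + W * derivative F = C c := by
  have h1 : Irreducible (F.map (Int.castRingHom ℚ)) :=
    (IsPrimitive.Int.irreducible_iff_irreducible_map_cast hF.isPrimitive).1 hirr
  have hsep : (F.map (Int.castRingHom ℚ)).Separable := h1.separable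
  obtain ⟨a, b, hab⟩ := hsep
  obtain ⟨u, hum, hu⟩ := IsLocalization.integerNormalization_spec (nonZeroDivisors ℤ) a
  obtain ⟨v, hvm, hv⟩ := IsLocalization.integerNormalization_spec (nonZeroDivisors ℤ) b
  obtain ⟨U, hU⟩ : ∃ U : ℤ[X], U = IsLocalization.integerNormalization (nonZeroDivisors ℤ) a := ⟨_, rfl⟩
  obtain ⟨W, hW⟩ : ∃ W : ℤ[X], W = IsLocalization.integerNormalization (nonZeroDivisors ℤ) b := ⟨_, rfl⟩
  rw [← hU] at hu
  rw [← hW] at hv
  have hu' : U.map (Int.castRingHom ℚ) = C (u : ℚ) * a := by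
    have := hu
    rw [zsmul_eq_mul] at this
    rw [← Polynomial.C_eq_intCast] at this
    simpa using this
  have hv' : W.map (Int.castRingHom ℚ) = C (v : ℚ) * b := by
    have := hv
    rw [zsmul_eq_mul] at this
    rw [← Polynomial.C_eq_intCast] at this
    simpa using this
  refine ⟨u * v, C v * U, C u * W, mul_ne_zero (nonZeroDivisors.ne_zero hum) (nonZeroDivisors.ne_zero hvm), ?_⟩
  apply map_injective (Int.castRingHom ℚ) Int.cast_injective
  rw [Polynomial.map_add, Polynomial.map_mul, Polynomial.map_mul, Polynomial.map_mul, Polynomial.map_mul, hu', hv', map_C, map_C, map_C,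
    ← derivative_map]
  simp only [eq_intCast, Int.cast_mul, C_mul]
  linear_combination (C (u : ℚ) * C (v : ℚ)) * hab

end Pool.Agent.Zk41.P4
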