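import Pool.Agent.Zk41.P4.Mer
import Pool.Agent.Zk41.P4.Rich
import Pool.Agent.Zk41.P4.Loc
import Pool.Agent.Zk41.P4.Sq
import Pool.Agent.Y882.KW.Alm
import Pool.Agent.K3h31.LP.Sieve

/-! Richert's theorem in all short intervals, with the factors bounded below. -/

set_option autoImplicit false

namespace Pool.Agent.Zk41.P4

open Finset Polynomial Filter
open Pool.Agent.Y677.RSZ (rt ev_log)
open Pool.Agent.W23.DC
open Pool.Agent.Y882
open Pool.Agent.Y882.PX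
open Pool.Agent.Y882.KW
open Pool.Agent.K3h19.RV (Lam)
open Pool.Agent.K3h31.LP (pr_facts pr_sq)

/-- the number of the roots of a monic polynomial -/
theorem rt_le_deg (F : ℤ[X]) (hF : F.Monic) (p : ℕ) (hp : p.Prime) : rt (fun n => F.eval n) p ≤ F.natDegree := by
  classical
  rw [← nr_rt F p hp]
  have : Fact p.Prime := ⟨hp⟩
  exact Pool.Agent.N842.TX.ni_le F hF (ZMod p)

/-- the roots of a shifted polynomial -/
theorem rt_shift (F : ℤ[X]) (Y : ℤ) (p : ℕ) (hp : 0 < p) :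
    rt (fun n => (F.comp (X + C Y)).eval n) p = rt (fun n => F.eval n) p := by
  classical
  have hp0 : (0 : ℤ) < p := by exact_mod_cast hp
  have hcls : ∀ x : ℤ, (p : ℤ) ∣ x - ((x % p).toNat : ℤ) := by
    intro x
    rw [Int.toNat_of_nonneg (Int.emod_nonneg _ hp0.ne')]
    exact Int.dvd_self_sub_emod
  have hlt : ∀ x : ℤ, (x % p).toNat < p := by
    intro x
    have h1 := Int.emod_lt_of_pos x hp0
    have h2 := Int.emod_nonneg x hp0.ne'
    omega
  have hev : ∀ x y : ℤ, (p : ℤ) ∣ x - y → ((p : ℤ) ∣ F.eval x ↔ (p : ℤ) ∣ F.eval y) := by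
    intro x y h
    exact dvd_iff_dvd_of_dvd_sub (h.trans (sub_dvd_eval_sub _ _ _))
  have huniq : ∀ (x : ℤ) (r : ℕ), r < p → (p : ℤ) ∣ x - r → (x % p).toNat = r := by
    intro x r hr h
    have h1 : x % p = r := by
      have h2 : (x : ℤ) ≡ r [ZMOD p] := (Int.modEq_iff_dvd.2 (by
        have := dvd_neg.2 h
        rwa [neg_sub] at this))
      rw [h2.eq]
      exact Int.emod_eq_of_lt (by positivity) (by exact_mod_cast hr)
    rw [h1]
    simp
  have hcomp : ∀ n : ℤ, (F.comp (X + C Y)).eval n = F.eval (n + Y) := by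
    intro n
    rw [eval_comp]
    simp
  unfold rt
  refine card_nbij' (fun r : ℕ => (((r : ℤ) + Y) % p).toNat) (fun s : ℕ => (((s : ℤ) - Y) % p).toNat) ?_ ?_ ?_ ?_
  · intro r hr
    simp only [coe_filter, Set.mem_setOf_eq, mem_range] at hr ⊢
    refine ⟨hlt _, ?_⟩
    rw [← hev _ _ (hcls _), ← hcomp]
    exact hr.2
  · intro s hs
    simp only [coe_filter, Set.mem_setOf_eq, mem_range] at hs ⊢
    refine ⟨hlt _, ?_⟩
    rw [hcomp, hev _ (s : ℤ)]
    · exact hs.2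
    · have h1 := hcls ((s : ℤ) - Y)
      have e : (((((s : ℤ) - Y) % p).toNat : ℤ) + Y) - s = -(((s : ℤ) - Y) - ((((s : ℤ) - Y) % p).toNat : ℤ)) := by ring
      rw [e]
      exact (dvd_neg).2 h1
  · intro r hr
    simp only [coe_filter, Set.mem_setOf_eq, mem_range] at hr
    apply huniq _ _ hr.1
    have h1 := hcls ((r : ℤ) + Y)
    have e : (((((r : ℤ) + Y) % p).toNat : ℤ) - Y) - r = -(((r : ℤ) + Y) - ((((r : ℤ) + Y) % p).toNat : ℤ)) := by ring
    rw [e]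
    exact (dvd_neg).2 h1
  · intro s hs
    simp only [coe_filter, Set.mem_setOf_eq, mem_range] at hs
    apply huniq _ _ hs.1
    have h1 := hcls ((s : ℤ) - Y)
    have e : (((((s : ℤ) - Y) % p).toNat : ℤ) + Y) - s = -(((s : ℤ) - Y) - ((((s : ℤ) - Y) % p).toNat : ℤ)) := by ring
    rw [e]
    exact (dvd_neg).2 h1

/-- the size of the values -/
theorem eval_le (F : ℤ[X]) (N : ℕ) (hN : 1 ≤ N) (x : ℤ) (hx : |x| ≤ N) :
    (F.eval x).natAbs ≤ (∑ i ∈ range (F.natDegree + 1), (F.coeff i).natAbs) * N ^ F.natDegree := by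
  rw [eval_eq_sum_range, sum_mul]
  refine (Int.natAbs_sum_le _ _).trans (sum_le_sum fun i hi => ?_)
  rw [mem_range] at hi
  rw [Int.natAbs_mul, Int.natAbs_pow]
  apply Nat.mul_le_mul_left
  have h1 : x.natAbs ≤ N := by
    have h2 : (x.natAbs : ℤ) ≤ N := by
      rw [Int.natCast_natAbs]
      exact hx
    exact_mod_cast h2
  calc x.natAbs ^ i ≤ N ^ i := Nat.pow_le_pow_left h1 i
    _ ≤ N ^ F.natDegree := Nat.pow_le_pow_right hN (by omega)

/-- an irreducible polynomial of degree at least two has no zero -/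
theorem no_root (F : ℤ[X]) (hF : F.Monic) (hirr : Irreducible F) (hg : 2 ≤ F.natDegree) (x : ℤ) : F.eval x ≠ 0 := by
  intro h
  have h1 : (X - C x) ∣ F := dvd_iff_isRoot.2 h
  obtain ⟨Q, hQ⟩ := h1
  rcases hirr.isUnit_or_isUnit hQ with h2 | h2
  · have h3 := natDegree_eq_zero_of_isUnit h2
    rw [natDegree_X_sub_C] at h3
    omega
  · have h3 := natDegree_eq_zero_of_isUnit h2
    have h4 : F.natDegree ≤ 1 := by
      rw [hQ]
      refine natDegree_mul_le.trans ?_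
      rw [natDegree_X_sub_C, h3]
    omega

open Classical in
/-- the remainder of the sieve -/
theorem rem_le (F : ℤ[X]) (hF : F.Monic) (hg : 1 ≤ F.natDegree) (η : ℝ) (hη : 0 < η) : ∃ C : ℝ, 1 ≤ C ∧
    ∀ (P : Finset ℕ) (c : Finset ℕ → ℝ) (L D : ℝ) (Y : ℤ) (H : ℕ), (∀ p ∈ P, p.Prime) → 0 ≤ L → 1 ≤ D → (∀ T, |c T| ≤ L) →
      (∀ T ⊆ P, c T ≠ 0 → ((∏ p ∈ T, p : ℕ) : ℝ) ≤ D) →
      |∑ T ∈ P.powerset, c T * ((((Icc 1 H).filter (fun j : ℕ => ∏ p ∈ T, p ∣ (F.eval (Y + j)).natAbs)).card : ℝ) -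
          (Icc 1 H).card * ∏ p ∈ T, ((rt (fun n => F.eval n) p : ℝ) / p))| ≤ L * (C * D ^ η) * D := by
  obtain ⟨C, hC1, hC⟩ := pow_card_le F.natDegree η hη
  refine ⟨2 * C, by linarith, fun P c L D Y H hP hL hD hcL hcD => ?_⟩
  have hC0 : 0 < C := by linarith
  -- one term
  have hone : ∀ T ∈ P.powerset, |c T * ((((Icc 1 H).filter (fun j : ℕ => ∏ p ∈ T, p ∣ (F.eval (Y + j)).natAbs)).card : ℝ) -
          (Icc 1 H).card * ∏ p ∈ T, ((rt (fun n => F.eval n) p : ℝ) / p))| ≤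
      if ((∏ p ∈ T, p : ℕ) : ℝ) ≤ D then L * (2 * C * D ^ η) else 0 := by
    intro T hT
    rw [mem_powerset] at hT
    by_cases h0 : c T = 0
    · rw [h0, zero_mul, abs_zero]
      split_ifs <;> positivity
    have hTD := hcD T hT h0
    rw [if_pos hTD, abs_mul]
    apply mul_le_mul (hcL T) _ (abs_nonneg _) hL
    have hTp : ∀ p ∈ T, p.Prime := fun p hp => hP p (hT hp)
    have hd0 : 0 < ∏ p ∈ T, p := Nat.pos_of_ne_zero (prod_ne_zero_iff.2 fun p hp => (hTp p hp).ne_zero)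
    have h1 := cnt_le (F.comp (X + Polynomial.C Y)) 0 (∏ p ∈ T, p) H hd0
    have e1 : cnt (F.comp (X + Polynomial.C Y)) 0 (∏ p ∈ T, p) H =
        ((Icc 1 H).filter (fun j : ℕ => ∏ p ∈ T, p ∣ (F.eval (Y + j)).natAbs)).card := by
      unfold cnt
      congr 1
      apply filter_congr
      intro j _
      rw [add_zero, eval_comp]
      simp only [eval_add, eval_X, eval_C]
      rw [Int.natCast_dvd, add_comm]
    have e2 : ∀ p ∈ T, ro (F.comp (X + Polynomial.C Y)) 0 p = rt (fun n => F.eval n) p := by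
      intro p hp
      rw [← rt_shift F Y p (hTp p hp).pos, ro_eq]
      unfold rt
      simp
    have e3 : ro (F.comp (X + Polynomial.C Y)) 0 (∏ p ∈ T, p) = ∏ p ∈ T, rt (fun n => F.eval n) p := by
      rw [ro_prod _ _ T hTp]
      exact prod_congr rfl e2
    have e4 : rr (F.comp (X + Polynomial.C Y)) 0 (∏ p ∈ T, p) H =
        (((Icc 1 H).filter (fun j : ℕ => ∏ p ∈ T, p ∣ (F.eval (Y + j)).natAbs)).card : ℝ) -
          (Icc 1 H).card * ∏ p ∈ T, ((rt (fun n => F.eval n) p : ℝ) / p) := by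
      unfold rr
      rw [e1, e3, Nat.card_Icc, Nat.add_sub_cancel, prod_div_distrib]
      push_cast
      ring
    rw [e4, e3] at h1
    refine h1.trans ?_
    have h2 : ((∏ p ∈ T, rt (fun n => F.eval n) p : ℕ) : ℝ) ≤ (F.natDegree : ℝ) ^ T.card := by
      push_cast
      rw [← prod_const]
      apply Finset.prod_le_prod
      · intro p _; positivity
      · intro p hp
        exact_mod_cast rt_le_deg F hF p (hTp p hp)
    have h3 : (1 : ℝ) ≤ (F.natDegree : ℝ) ^ T.card := one_le_pow₀ (by exact_mod_cast hg)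
    have h4 := hC T hTp
    have h5 : ((∏ p ∈ T, p : ℕ) : ℝ) ^ η ≤ D ^ η := Real.rpow_le_rpow (Nat.cast_nonneg _) hTD hη.le
    have h6 : C * ((∏ p ∈ T, p : ℕ) : ℝ) ^ η ≤ C * D ^ η := mul_le_mul_of_nonneg_left h5 hC0.le
    linarith
  calc _ ≤ ∑ T ∈ P.powerset, |c T * ((((Icc 1 H).filter (fun j : ℕ => ∏ p ∈ T, p ∣ (F.eval (Y + j)).natAbs)).card : ℝ) -
          (Icc 1 H).card * ∏ p ∈ T, ((rt (fun n => F.eval n) p : ℝ) / p))| := abs_sum_le_sum_abs _ _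
    _ ≤ ∑ T ∈ P.powerset, if ((∏ p ∈ T, p : ℕ) : ℝ) ≤ D then L * (2 * C * D ^ η) else 0 := sum_le_sum hone
    _ = (P.powerset.filter (fun T : Finset ℕ => ((∏ p ∈ T, p : ℕ) : ℝ) ≤ D)).card * (L * (2 * C * D ^ η)) := by
        rw [← sum_filter, sum_const, nsmul_eq_mul]
    _ ≤ D * (L * (2 * C * D ^ η)) := by
        apply mul_le_mul_of_nonneg_right _ (by positivity)
        have h1 := Pool.Agent.TH423.SH.FLIP.card_le P hP ⌊D⌋₊
        have h2 : P.powerset.filter (fun T : Finset ℕ => ((∏ p ∈ T, p : ℕ) : ℝ) ≤ D) ⊆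
            P.powerset.filter (fun T : Finset ℕ => ∏ p ∈ T, p ≤ ⌊D⌋₊) := by
          intro T hT
          rw [mem_filter] at hT ⊢
          exact ⟨hT.1, Nat.le_floor hT.2⟩
        calc ((P.powerset.filter (fun T : Finset ℕ => ((∏ p ∈ T, p : ℕ) : ℝ) ≤ D)).card : ℝ) ≤ (⌊D⌋₊ : ℝ) := by
              exact_mod_cast (Finset.card_le_card h2).trans h1
          _ ≤ D := Nat.floor_le (by linarith)
    _ = _ := by ring

open Classical in
/-- the `j ≤ H` for which `F (Y + j)` has at most `r` prime factors, all at least `N ^ δ` -/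
noncomputable def RP (F : ℤ[X]) (r : ℕ) (δ : ℝ) (N : ℕ) (Y : ℤ) (H : ℕ) : Finset ℕ :=
  (Icc 1 H).filter (fun j : ℕ => (F.eval (Y + j)).natAbs.primeFactorsList.length ≤ r ∧
    ∀ p : ℕ, p.Prime → p ∣ (F.eval (Y + j)).natAbs → (N : ℝ) ^ δ ≤ p)

theorem Lam_pos (r : ℕ) (hr : 1 ≤ r) : 1 ≤ Lam r := by
  unfold Lam
  have h3 : (3 : ℝ) ≤ 3 ^ r := by
    calc (3 : ℝ) = 3 ^ 1 := (pow_one _).symm
      _ ≤ 3 ^ r := pow_le_pow_right₀ (by norm_num) hr
  have h1 : 0 ≤ Real.log ((3 ^ r + 1) / 4) := Real.log_nonneg (by linarith)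
  have h2 : 0 < Real.log 3 := Real.log_pos (by norm_num)
  have := div_nonneg h1 h2.le
  linarith

open Classical in
/-- **Richert's theorem in short intervals.** -/
theorem richert_win (F : ℤ[X]) (hF : F.Monic) (hirr : Irreducible F) (hg : 2 ≤ F.natDegree)
    (hρ : ∀ p : ℕ, p.Prime → rt (fun n => F.eval n) p < p) (r : ℕ) (hr : 1 ≤ r) (θ : ℝ) (hθ1 : θ ≤ 1)
    (hθ : F.natDegree < θ * Lam r) :
    ∃ δ c : ℝ, 0 < δ ∧ 0 < c ∧ ∃ N₀ : ℕ, ∀ N : ℕ, N₀ ≤ N → ∀ (Y : ℤ) (H : ℕ), -(N : ℤ) ≤ Y → Y + H ≤ N →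
      (N : ℝ) ^ θ ≤ H → c * (H / Real.log H) ≤ (RP F r δ N Y H).card := by
  set g := F.natDegree with hgd
  have hg0 : (2 : ℝ) ≤ g := by exact_mod_cast hg
  have hL1 := Lam_pos r hr
  have hL0 : 0 < Lam r := by linarith
  have hθ0 : 0 < θ := by
    by_contra h
    push Not at h
    nlinarith
  have hgL : g / Lam r < θ := by rwa [div_lt_iff₀ hL0]
  have hgL0 : 0 < g / Lam r := by positivity
  obtain ⟨τ, hτd⟩ : ∃ τ : ℝ, τ = (g / Lam r + θ) / 2 := ⟨_, rfl⟩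
  have hτ0 : 0 < τ := by rw [hτd]; positivity
  have hτθ : τ < θ := by rw [hτd]; linarith
  have hτL : (g : ℝ) < τ * Lam r := by
    have h1 : g / Lam r < τ := by rw [hτd]; linarith
    rwa [div_lt_iff₀ hL0] at h1
  obtain ⟨υ, lam, S, hτυ, hυτ, hlam, hgS, hrS, hint⟩ := richertD r hr g τ (by linarith) hτ0 hτL
  have hυ0 : 0 < υ := by linarith
  obtain ⟨ε, hεd⟩ : ∃ ε : ℝ, ε = (θ - τ) / 8 := ⟨_, rfl⟩
  have hε0 : 0 < ε := by rw [hεd]; linarith
  obtain ⟨δ, ε₁, η, hδ, hε₁, hε₁ζ, hε₁β, hη, Y0, HC⟩ :=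
    core4 g τ (τ / 4) υ lam (lam / υ) (τ + ε) 1 ε (by linarith) (by linarith) (by linarith) (by linarith) hτυ hυτ
      hlam.le (by positivity) (by rw [div_mul_cancel₀ _ hυ0.ne']) hint (by linarith) one_pos hε0
  obtain ⟨Y1, HM⟩ := mer_irr F hF hirr ε₁ υ η hε₁ (by linarith) hη
  obtain ⟨c₁, C₁, hc₁, hC₁, HV⟩ := loc_irr F hirr (by omega) g (by omega)
    (fun p hp => ⟨rt_le_deg F hF p hp, hρ p hp⟩)
  obtain ⟨CR, hCR1, HR⟩ := rem_le F hF (by omega) ε hε0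
  obtain ⟨b, U, W, hb0, hUW⟩ := bez F hF hirr
  obtain ⟨A, hA⟩ : ∃ A : ℕ, A = ∑ i ∈ range (F.natDegree + 1), (F.coeff i).natAbs := ⟨_, rfl⟩
  -- numerical conditions
  have hcast : Tendsto (fun N : ℕ => (N : ℝ)) atTop atTop := tendsto_natCast_atTop_atTop
  have v1 := ev_log 1 (5 * CR) ε hε0
  have v2 : ∀ᶠ N : ℕ in atTop, (A : ℝ) ≤ (N : ℝ) ^ (S - g) :=
    ((tendsto_rpow_atTop (by linarith)).comp hcast).eventually_ge_atTop _
  have v3 : ∀ᶠ N : ℕ in atTop, (b.natAbs : ℝ) + 2 ≤ (N : ℝ) ^ (τ / 4) :=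
    ((tendsto_rpow_atTop (by linarith)).comp hcast).eventually_ge_atTop _
  have v4 := ev_log 1 (8 * g / (δ * c₁)) (τ / 4) (by linarith)
  have v5 := ev_log 1 (4 * g / (δ * c₁)) (θ - υ) (by linarith)
  obtain ⟨N₁, hN₁⟩ := eventually_atTop.1 (v1.and (v2.and (v3.and (v4.and (v5.and (eventually_ge_atTop (Y0 + Y1 + 3)))))))
  refine ⟨τ / 4, δ * c₁ * θ / 2, by linarith, by positivity, N₁, fun N hN Y H hY1 hY2 hH => ?_⟩
  obtain ⟨w1, w2, w3, w4, w5, w6⟩ := hN₁ N hN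
  rw [pow_one] at w1 w4 w5
  have hN3 : (3 : ℝ) ≤ N := by exact_mod_cast (by omega : 3 ≤ N)
  have hN0 : (0 : ℝ) < N := by linarith
  have hN1 : (1 : ℝ) ≤ N := by linarith
  have hlN : 0 < Real.log N := Real.log_pos (by linarith)
  have hH1 : (1 : ℝ) < H := lt_of_lt_of_le (Real.one_lt_rpow (by linarith) hθ0) hH
  have hH0 : (0 : ℝ) < H := by linarith
  have hlH : 0 < Real.log H := Real.log_pos hH1
  obtain ⟨c, hcL, hcD, hcM⟩ := HC N (by omega)
  obtain ⟨a, ha⟩ : ∃ a : ℕ → ℕ, ∀ j : ℕ, a j = (F.eval (Y + j)).natAbs := ⟨_, fun _ => rfl⟩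
  have hPZ : ∀ p ∈ PZ N υ, p.Prime := by
    intro p hp
    unfold PZ at hp
    rw [mem_filter] at hp
    exact hp.2.1
  have hrem : |∑ T ∈ (PZ N υ).powerset, c T * ((((Icc 1 H).filter (fun j => ∏ p ∈ T, p ∣ a j)).card : ℝ) -
          (Icc 1 H).card * ∏ p ∈ T, ((rt (fun n => F.eval n) p : ℝ) / p))| ≤ (Icc 1 H).card * (N : ℝ) ^ (-ε) := by
    have h1 := HR (PZ N υ) c (5 * Real.log N) ((N : ℝ) ^ (τ + ε)) Y H hPZ (by positivity)
      (Real.one_le_rpow hN1 (by linarith)) hcL hcD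
    simp_rw [← ha] at h1
    refine h1.trans ?_
    rw [Nat.card_Icc, Nat.add_sub_cancel]
    have h2 : ((N : ℝ) ^ (τ + ε)) ^ ε ≤ (N : ℝ) ^ (2 * ε) := by
      rw [← Real.rpow_mul hN0.le]
      apply Real.rpow_le_rpow_of_exponent_le hN1
      nlinarith
    calc 5 * Real.log N * (CR * ((N : ℝ) ^ (τ + ε)) ^ ε) * (N : ℝ) ^ (τ + ε) ≤
        5 * Real.log N * (CR * (N : ℝ) ^ (2 * ε)) * (N : ℝ) ^ (τ + ε) := by gcongr
      _ = (5 * CR * Real.log N) * ((N : ℝ) ^ (2 * ε) * (N : ℝ) ^ (τ + ε)) := by ring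
      _ ≤ (N : ℝ) ^ ε * ((N : ℝ) ^ (2 * ε) * (N : ℝ) ^ (τ + ε)) := by gcongr
      _ = (N : ℝ) ^ (τ + 4 * ε) := by
          rw [← Real.rpow_add hN0, ← Real.rpow_add hN0]
          congr 1
          ring
      _ ≤ (N : ℝ) ^ (θ - ε) := by
          apply Real.rpow_le_rpow_of_exponent_le hN1
          rw [hεd]
          linarith
      _ = (N : ℝ) ^ θ * (N : ℝ) ^ (-ε) := by
          rw [← Real.rpow_add hN0]
          congr 1
      _ ≤ H * (N : ℝ) ^ (-ε) := mul_le_mul_of_nonneg_right hH (by positivity)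
  have hmain := hcM (Icc 1 H) a (rt (fun n => F.eval n)) N (by rw [Real.rpow_one])
    (fun p hp => rt_le_deg F hF p hp) (fun p hp => (hρ p hp).le) (HM N (by omega)) hrem
  rw [Nat.card_Icc, Nat.add_sub_cancel] at hmain
  have hV := (HV N (by omega)).1
  have hlow : δ * c₁ * (H / Real.log N) ≤
      (((Icc 1 H).filter (fun j => 0 < WW N (τ / 4) υ lam (lam / υ) (a j))).card : ℝ) := by
    refine le_trans ?_ hmain
    calc δ * c₁ * (H / Real.log N) = δ * H * (c₁ / Real.log N) := by ring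
      _ ≤ _ := mul_le_mul_of_nonneg_left hV (by positivity)
  -- the squares
  obtain ⟨B, hB⟩ : ∃ B : Finset ℕ, B = (Icc 1 H).filter (fun j : ℕ => ∃ q ∈ pr N (τ / 4) υ, ((q ^ 2 : ℕ) : ℤ) ∣ F.eval (Y + j)) := ⟨_, rfl⟩
  have hBc : (B.card : ℝ) ≤ δ * c₁ / 2 * (H / Real.log N) := by
    have h1 : B.card ≤ ∑ q ∈ pr N (τ / 4) υ, ((Icc 1 H).filter (fun j : ℕ => ((q ^ 2 : ℕ) : ℤ) ∣ F.eval (Y + j))).card := by
      refine (Finset.card_le_card (t := (pr N (τ / 4) υ).biUnion (fun q => (Icc 1 H).filter (fun j : ℕ => ((q ^ 2 : ℕ) : ℤ) ∣ F.eval (Y + j)))) ?_).trans card_biUnion_le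
      intro j hj
      rw [hB, mem_filter] at hj
      obtain ⟨hj1, q, hq, hqd⟩ := hj
      rw [mem_biUnion]
      exact ⟨q, hq, mem_filter.2 ⟨hj1, hqd⟩⟩
    have h2 : ∀ q ∈ pr N (τ / 4) υ, ((((Icc 1 H).filter (fun j : ℕ => ((q ^ 2 : ℕ) : ℤ) ∣ F.eval (Y + j))).card : ℕ) : ℝ) ≤
        g * (H * (1 / (q : ℝ) ^ 2) + 1) := by
      intro q hq
      obtain ⟨h3, h4, h5, h6⟩ := pr_facts (by omega) hq
      apply sq_cnt F b U W hUW q h3 _ g (rt_le_deg F hF q h3) Y H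
      intro hd
      have h7 : q ∣ b.natAbs := Int.natCast_dvd.1 hd
      have h8 := Nat.le_of_dvd (Int.natAbs_pos.2 hb0) h7
      have h9 : (q : ℝ) ≤ b.natAbs := by exact_mod_cast h8
      linarith
    have h3 : (B.card : ℝ) ≤ ∑ q ∈ pr N (τ / 4) υ, g * (H * (1 / (q : ℝ) ^ 2) + 1) := by
      calc (B.card : ℝ) ≤ ∑ q ∈ pr N (τ / 4) υ, ((((Icc 1 H).filter (fun j : ℕ => ((q ^ 2 : ℕ) : ℤ) ∣ F.eval (Y + j))).card : ℕ) : ℝ) := by
            exact_mod_cast h1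
        _ ≤ _ := sum_le_sum h2
    have h4 : ∑ q ∈ pr N (τ / 4) υ, (g : ℝ) * (H * (1 / (q : ℝ) ^ 2) + 1) =
        (g : ℝ) * ((H : ℝ) * ∑ q ∈ pr N (τ / 4) υ, 1 / (q : ℝ) ^ 2 + ((pr N (τ / 4) υ).card : ℝ)) := by
      rw [← mul_sum, sum_add_distrib, ← mul_sum, sum_const, nsmul_eq_mul, mul_one]
    have h5 := pr_sq (Y := N) (by omega) (τ / 4) υ (by
      have : (0 : ℝ) ≤ b.natAbs := Nat.cast_nonneg _
      linarith)
    have h6 : ((pr N (τ / 4) υ).card : ℝ) ≤ (N : ℝ) ^ υ := by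
      have h7 : pr N (τ / 4) υ ⊆ Icc 1 ⌊(N : ℝ) ^ υ⌋₊ := by
        intro q hq
        obtain ⟨g3, g4, g5, g6⟩ := pr_facts (by omega) hq
        rw [mem_Icc]
        exact ⟨g3.one_le, Nat.le_floor g6.le⟩
      calc ((pr N (τ / 4) υ).card : ℝ) ≤ ((Icc 1 ⌊(N : ℝ) ^ υ⌋₊).card : ℝ) := by exact_mod_cast Finset.card_le_card h7
        _ = (⌊(N : ℝ) ^ υ⌋₊ : ℝ) := by rw [Nat.card_Icc, Nat.add_sub_cancel]
        _ ≤ _ := Nat.floor_le (by positivity)
    rw [h4] at h3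
    refine h3.trans ?_
    have hNζ : (0 : ℝ) < (N : ℝ) ^ (τ / 4) := by positivity
    have g1 : (g : ℝ) * (H * (2 / (N : ℝ) ^ (τ / 4))) ≤ δ * c₁ / 4 * (H / Real.log N) := by
      have g2 : 8 * g * Real.log N ≤ (N : ℝ) ^ (τ / 4) * (δ * c₁) := by
        rw [div_mul_eq_mul_div, div_le_iff₀ (by positivity)] at w4
        exact w4
      rw [show (g : ℝ) * (H * (2 / (N : ℝ) ^ (τ / 4))) = (2 * g * H) / (N : ℝ) ^ (τ / 4) by ring,
        show δ * c₁ / 4 * (H / Real.log N) = (δ * c₁ * H / 4) / Real.log N by ring,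
        div_le_div_iff₀ hNζ hlN]
      nlinarith [mul_le_mul_of_nonneg_right g2 hH0.le]
    have g3 : (g : ℝ) * (N : ℝ) ^ υ ≤ δ * c₁ / 4 * (H / Real.log N) := by
      have g4 : 4 * g * Real.log N ≤ (N : ℝ) ^ (θ - υ) * (δ * c₁) := by
        rw [div_mul_eq_mul_div, div_le_iff₀ (by positivity)] at w5
        exact w5
      have g5 : (N : ℝ) ^ (θ - υ) * (N : ℝ) ^ υ ≤ H := by
        rw [← Real.rpow_add hN0]
        refine le_trans (le_of_eq ?_) hH
        congr 1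
        ring
      rw [show δ * c₁ / 4 * (H / Real.log N) = (δ * c₁ * H / 4) / Real.log N by ring, le_div_iff₀ hlN]
      have g6 := mul_le_mul_of_nonneg_right g4 (show 0 ≤ (N : ℝ) ^ υ by positivity)
      have g7 := mul_le_mul_of_nonneg_right g5 (show 0 ≤ δ * c₁ by positivity)
      nlinarith
    have g8 : (g : ℝ) * ((H : ℝ) * ∑ q ∈ pr N (τ / 4) υ, 1 / (q : ℝ) ^ 2 + ((pr N (τ / 4) υ).card : ℝ)) ≤
        g * (H * (2 / (N : ℝ) ^ (τ / 4)) + (N : ℝ) ^ υ) := by gcongr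
    linarith
  -- the good points
  have hsub : ((Icc 1 H).filter (fun j => 0 < WW N (τ / 4) υ lam (lam / υ) (a j))) ⊆ RP F r (τ / 4) N Y H ∪ B := by
    intro j hj
    rw [mem_filter] at hj
    obtain ⟨hj1, hj2⟩ := hj
    by_cases hjB : j ∈ B
    · exact mem_union_right _ hjB
    apply mem_union_left
    have hjI := mem_Icc.1 hj1
    have hx : |Y + j| ≤ N := by
      rw [abs_le]
      constructor <;> omega
    have hsz : ((a j : ℕ) : ℝ) ≤ (N : ℝ) ^ S := by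
      have h1 := eval_le F N (by omega) (Y + j) hx
      rw [← hA, ← ha, ← hgd] at h1
      calc ((a j : ℕ) : ℝ) ≤ A * (N : ℝ) ^ g := by exact_mod_cast h1
        _ ≤ (N : ℝ) ^ (S - g) * (N : ℝ) ^ g := by gcongr
        _ = (N : ℝ) ^ S := by
            rw [← Real.rpow_natCast, ← Real.rpow_add hN0]
            congr 1
            ring
    have halm := almost N (by omega) (τ / 4) υ lam S r hτυ hυ0 (by linarith) hlam hrS (a j)
      (by rw [ha]; exact Int.natAbs_ne_zero.2 (no_root F hF hirr hg _)) hsz hj2 (by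
        intro q hq hqd
        apply hjB
        rw [hB, mem_filter]
        refine ⟨hj1, q, hq, ?_⟩
        rw [ha] at hqd
        exact Int.natCast_dvd.2 hqd)
    unfold RP
    rw [mem_filter, ← ha]
    exact ⟨hj1, halm.1, halm.2⟩
  have hcard : ((((Icc 1 H).filter (fun j => 0 < WW N (τ / 4) υ lam (lam / υ) (a j))).card : ℕ) : ℝ) ≤
      (RP F r (τ / 4) N Y H).card + B.card := by
    exact_mod_cast (Finset.card_le_card hsub).trans (card_union_le _ _)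
  have hfin : δ * c₁ / 2 * (H / Real.log N) ≤ (RP F r (τ / 4) N Y H).card := by linarith
  refine le_trans ?_ hfin
  have hlog : θ * Real.log N ≤ Real.log H := by
    rw [← Real.log_rpow hN0]
    exact Real.log_le_log (by positivity) hH
  rw [show δ * c₁ * θ / 2 * (H / Real.log H) = (δ * c₁ * H * θ / 2) / Real.log H by ring,
    show δ * c₁ / 2 * (H / Real.log N) = (δ * c₁ * H / 2) / Real.log N by ring, div_le_div_iff₀ hlH hlN]
  have h1 := mul_le_mul_of_nonneg_left hlog (show 0 ≤ δ * c₁ * H / 2 by positivity)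
  linarith

end Pool.Agent.Zk41.P4
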