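import Pool.Agent.Zk41.P4.Low
import Pool.Agent.R498.MT.Fin2
import Pool.Agent.R498.MT.Inst

set_option autoImplicit false
set_option linter.unusedSectionVars false

/-! The theorem of Maynard and Tao for the values with few prime factors of a polynomial of any degree. -/

namespace Pool.Agent.Zk41.P4

open Finset Filter Polynomial
open Pool.Agent.Y677.RSZ (rt Sys rhoT per_mod ev_log V eng_all)
open Pool.Agent.TH423.SH (PS)
open Pool.Agent.W23.DC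
open Pool.Agent.Y882
open Pool.Agent.Y882.PX
open Pool.Agent.Y882.KW
open Pool.Agent.R498.MT
open Pool.Agent.K3h19.RV (Lam)

/-- the numerical conditions -/
theorem nums2 (W r n₀ KP H₀ q0 Y₀ NT a : ℕ) (CG c1 c2 ζ υ θ θ' e : ℝ) (hW : 2 ≤ W) (hr : r < W)
    (hζ : 0 < ζ) (hυ : υ < θ') (hθ' : 0 < θ') (hθ : θ' < θ) (hθ1 : θ ≤ 1) (he : 0 < e) :
    ∀ᶠ N : ℕ in atTop, 3 ≤ N ∧ Y₀ ≤ N ∧ n₀ ≤ N ∧ (KP : ℝ) ≤ N ∧ (q0 : ℝ) + 2 ≤ (N : ℝ) ^ ζ ∧
      ((3 * N + W * NT + 1 : ℕ) : ℝ) ≤ (N : ℝ) ^ 2 ∧ CG ≤ (N : ℝ) ^ e ∧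
      W * NT + 2 * W + 1 ≤ N ∧
      c1 * Real.log N ^ a ≤ (N : ℝ) ^ ζ ∧ c2 * Real.log N ^ a ≤ (N : ℝ) ^ (θ' - υ) ∧
      ∃ L : ℕ, W * (L + 1) ≤ ⌊(N : ℝ) ^ θ⌋₊ ∧ (N : ℝ) ^ θ' ≤ L ∧
        H₀ ≤ W * L ∧ W * L ≤ N ∧ (N + r) / W + L ≤ N := by
  have hT := tendsto_natCast_atTop_atTop (R := ℝ)
  have v1 : ∀ᶠ N : ℕ in atTop, (q0 : ℝ) + 2 ≤ (N : ℝ) ^ ζ :=
    ((tendsto_rpow_atTop hζ).comp hT).eventually_ge_atTop _
  have v2 : ∀ᶠ N : ℕ in atTop, CG ≤ (N : ℝ) ^ e :=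
    ((tendsto_rpow_atTop he).comp hT).eventually_ge_atTop _
  have v3 := ev_log a c1 ζ hζ
  have v4 := ev_log a c2 (θ' - υ) (by linarith)
  have v5 : ∀ᶠ N : ℕ in atTop, (5 * W : ℝ) ≤ (N : ℝ) ^ (θ - θ') :=
    ((tendsto_rpow_atTop (by linarith)).comp hT).eventually_ge_atTop _
  have v6 : ∀ᶠ N : ℕ in atTop, (1 : ℝ) + H₀ ≤ (N : ℝ) ^ θ' :=
    ((tendsto_rpow_atTop hθ').comp hT).eventually_ge_atTop _
  filter_upwards [eventually_ge_atTop (3 + r), eventually_ge_atTop Y₀, eventually_ge_atTop n₀,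
    eventually_ge_atTop KP, eventually_ge_atTop (W * NT + 2 * W + 4), v1, v2, v3, v4, v5, v6]
    with N e1 e2 e3 e4 e5 w1 w2 w3 w4 w5 w6
  have hNr : (3 : ℝ) ≤ N := by exact_mod_cast (by omega : 3 ≤ N)
  have hN0 : (0 : ℝ) < N := by linarith
  have hN1 : (1 : ℝ) ≤ N := by linarith
  have hWr : (2 : ℝ) ≤ W := by exact_mod_cast hW
  refine ⟨by omega, e2, e3, by exact_mod_cast e4, w1, ?_, w2, by omega, w3, w4, ?_⟩
  · have h1 : 3 * N + W * NT + 1 ≤ N ^ 2 := by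
      have h2 : 4 ≤ N := by omega
      have h3 : W * NT + 1 ≤ N := by omega
      nlinarith
    exact_mod_cast h1
  · set Q : ℕ := ⌊(N : ℝ) ^ θ⌋₊ with hQ
    have hQ1 : (N : ℝ) ^ θ - 1 < Q := by
      have := Nat.lt_floor_add_one ((N : ℝ) ^ θ)
      linarith
    have hQ2 : (Q : ℝ) ≤ (N : ℝ) ^ θ := Nat.floor_le (by positivity)
    have hsplit : (N : ℝ) ^ θ = (N : ℝ) ^ θ' * (N : ℝ) ^ (θ - θ') := by
      rw [← Real.rpow_add hN0]
      congr 1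
      ring
    have hT1 : (1 : ℝ) ≤ (N : ℝ) ^ θ' := by
      have : (0 : ℝ) ≤ H₀ := Nat.cast_nonneg _
      linarith
    have hQ3 : (5 * W : ℝ) * (N : ℝ) ^ θ' ≤ (N : ℝ) ^ θ := by
      rw [hsplit]
      nlinarith
    have hQW : (Q : ℝ) < W * ((Q / W : ℕ) + 1) := by
      have h1 : Q < W * (Q / W + 1) := by
        have := Nat.lt_mul_div_succ Q (show 0 < W by omega)
        exact this
      exact_mod_cast h1
    have hQW1 : 1 ≤ Q / W := by
      rw [Nat.le_div_iff_mul_le (by omega), one_mul]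
      have h1 : (W : ℝ) ≤ Q := by nlinarith
      exact_mod_cast h1
    obtain ⟨L, hL⟩ : ∃ L : ℕ, L + 1 = Q / W := ⟨Q / W - 1, by omega⟩
    have hLr : ((Q / W : ℕ) : ℝ) = L + 1 := by rw [← hL]; push_cast; rfl
    have hL1 : (N : ℝ) ^ θ' ≤ L := by
      rw [hLr] at hQW
      have h1 : (W : ℝ) * (5 * (N : ℝ) ^ θ') < W * (L + 1 + 1) + 1 := by nlinarith
      have h2 : (W : ℝ) * (5 * (N : ℝ) ^ θ') < W * (L + 1 + 1 + 1) := by nlinarith
      have h3 := lt_of_mul_lt_mul_left h2 (by linarith)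
      linarith
    have hWLQ : W * (L + 1) ≤ Q := by
      rw [hL]
      exact Nat.mul_div_le Q W
    have hQN : Q ≤ N := by
      have h1 : (Q : ℝ) ≤ N := by
        refine hQ2.trans ?_
        calc (N : ℝ) ^ θ ≤ (N : ℝ) ^ (1 : ℝ) :=
              Real.rpow_le_rpow_of_exponent_le hN1 hθ1
          _ = N := Real.rpow_one _
      exact_mod_cast h1
    refine ⟨L, hWLQ, hL1, ?_, ?_, ?_⟩
    · have h1 : (H₀ : ℝ) ≤ L := by linarith
      have h2 : H₀ ≤ L := by exact_mod_cast h1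
      exact h2.trans (Nat.le_mul_of_pos_left _ (by omega))
    · have : W * L ≤ W * (L + 1) := Nat.mul_le_mul_left _ (by omega)
      omega
    · have h1 : (N + r) / W ≤ N / W + 1 := by
        rw [← Nat.add_div_right N (show 0 < W by omega)]
        exact Nat.div_le_div_right (by omega)
      have h2 : L + 1 ≤ N / W := by
        rw [hL]
        exact Nat.div_le_div_right hQN
      have h3 : 2 * (N / W) ≤ W * (N / W) := Nat.mul_le_mul_right _ hW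
      have h4 : W * (N / W) ≤ N := Nat.mul_div_le N W
      omega

/-- sizes of the values of a polynomial -/
theorem size_P2 (Q : ℤ[X]) (KP DP N H E : ℕ) (θ : ℝ) (hθ : 0 < θ) (hE : 2 ≤ θ * E)
    (hKD : ∀ t : ℤ, |((Q.eval t : ℤ) : ℝ)| ≤ KP * (1 + |(t : ℝ)|) ^ DP)
    (hN : 1 ≤ N) (hKP : (KP : ℝ) ≤ N) (hH : (N : ℝ) ^ θ ≤ H) (x : ℕ)
    (hx : ((x + 1 : ℕ) : ℝ) ≤ (N : ℝ) ^ 2) :
    |Q.eval (x : ℤ)| ≤ (H : ℤ) ^ (E * (DP + 1)) := by
  have hN1 : (1 : ℝ) ≤ N := by exact_mod_cast hN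
  have hN0 : (0 : ℝ) < N := by linarith
  have h1 := hKD (x : ℤ)
  have h2 : |((x : ℤ) : ℝ)| = (x : ℝ) := by
    rw [Int.cast_natCast, abs_of_nonneg (Nat.cast_nonneg x)]
  rw [h2] at h1
  push_cast at hx
  have h3 : (KP : ℝ) * (1 + (x : ℝ)) ^ DP ≤ N * ((N : ℝ) ^ 2) ^ DP := by
    have h4 : (1 + (x : ℝ)) ^ DP ≤ ((N : ℝ) ^ 2) ^ DP :=
      pow_le_pow_left₀ (by positivity) (by linarith) _
    exact mul_le_mul hKP h4 (by positivity) hN0.le
  have h4 : (N : ℝ) * ((N : ℝ) ^ 2) ^ DP ≤ (N : ℝ) ^ (2 * (DP + 1)) := by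
    rw [← pow_mul, ← pow_succ']
    exact pow_le_pow_right₀ hN1 (by omega)
  have h5 : (N : ℝ) ^ (2 * (DP + 1)) ≤ (H : ℝ) ^ (E * (DP + 1)) := by
    have h6 : (N : ℝ) ^ (2 * (DP + 1)) ≤ ((N : ℝ) ^ θ) ^ (E * (DP + 1)) := by
      rw [← Real.rpow_natCast ((N : ℝ) ^ θ), ← Real.rpow_mul hN0.le, ← Real.rpow_natCast]
      apply Real.rpow_le_rpow_of_exponent_le hN1
      push_cast
      have : (0 : ℝ) ≤ (DP : ℝ) + 1 := by positivity
      nlinarith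
    exact h6.trans (pow_le_pow_left₀ (by positivity) hH _)
  have h6 : |((Q.eval (x : ℤ) : ℤ) : ℝ)| ≤ (H : ℝ) ^ (E * (DP + 1)) := h1.trans (h3.trans (h4.trans h5))
  exact_mod_cast h6

open Classical in
/-- the arguments with a good set of slots -/
theorem many2 (F G : ℤ → ℤ) (KK q0 W b r M L N k m a : ℕ) (θ ε₁ ζ υ aw bw c V : ℝ)
    (hSq : ∀ q : ℕ, q.Prime → q0 ≤ q → ∀ N H : ℕ,
      ((((Icc 1 H).filter (fun j : ℕ => ((q ^ 2 : ℕ) : ℤ) ∣ G ((N + j : ℕ) : ℤ))).card : ℕ) : ℝ) ≤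
        KK * (H * (1 / (q : ℝ) ^ 2) + 1)) (hW : 0 < W) (hN : 3 ≤ N)
    (hq0 : (q0 : ℝ) + 2 ≤ (N : ℝ) ^ ζ) (t : Fin (2 ^ k) → ℕ)
    (hc : 0 < c) (hV : 0 < V) (hV1 : 1 ≤ Real.log N ^ a * V)
    (hgd : c * (L * V) ≤ ((gd F G N ε₁ ζ υ aw bw W b t m M L).card : ℝ))
    (hL : (N : ℝ) ^ θ ≤ L)
    (h1 : 8 * (2 ^ k * KK * W) / c * Real.log N ^ a ≤ (N : ℝ) ^ ζ)
    (h2 : 4 * (2 ^ k * KK) / c * Real.log N ^ a ≤ (N : ℝ) ^ (θ - υ)) :
    ∃ (Hs : Finset (Fin (2 ^ k))) (A : Finset ℕ), Hs.card = m ∧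
      c / (2 * 2 ^ 2 ^ k) * (L * V) ≤ A.card ∧
      ∀ K ∈ A, K ∈ Ioc M (M + L) ∧ (∀ p : ℕ, p.Prime → (p : ℝ) < (N : ℝ) ^ ε₁ → ∀ i,
          ¬ (p : ℤ) ∣ F ((W * (K + t i) + b : ℕ) : ℤ)) ∧
        ∀ i ∈ Hs, 0 < WW N ζ υ aw bw (G ((W * (K + t i) + b : ℕ) : ℤ)).natAbs ∧
          ∀ q ∈ pr N ζ υ, ¬ ((q ^ 2 : ℕ) : ℤ) ∣ G ((W * (K + t i) + b : ℕ) : ℤ) := by
  have hNr : (3 : ℝ) ≤ N := by exact_mod_cast hN
  have hN0 : (0 : ℝ) < N := by linarith
  have hlN : 0 < Real.log N := Real.log_pos (by linarith)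
  have hL0 : (0 : ℝ) < L := lt_of_lt_of_le (by positivity) hL
  set Bd := (Ioc M (M + L)).filter (fun K => ∃ i, ∃ q ∈ pr N ζ υ,
      ((q ^ 2 : ℕ) : ℤ) ∣ G ((W * (K + t i) + b : ℕ) : ℤ)) with hBd
  set Gd := gd F G N ε₁ ζ υ aw bw W b t m M L with hGd
  have hbad := bad_le G KK q0 hSq W b M L N t hW ζ υ (by omega) hq0
  have hbad2 : ((2 ^ k : ℕ) : ℝ) * (KK * ((W * L : ℕ) * (2 / (N : ℝ) ^ ζ) + (N : ℝ) ^ υ)) ≤
      c / 2 * (L * V) := by
    have hla : 0 < Real.log N ^ a := by positivity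
    rw [div_mul_eq_mul_div, div_le_iff₀ hc] at h1 h2
    have e1 : ((2 ^ k : ℕ) : ℝ) * (KK * ((W * L : ℕ) * (2 / (N : ℝ) ^ ζ))) ≤ c / 4 * (L * V) := by
      have hNζ : (0 : ℝ) < (N : ℝ) ^ ζ := by positivity
      push_cast
      rw [show (2 : ℝ) ^ k * (KK * (W * L * (2 / (N : ℝ) ^ ζ))) =
        (2 * (2 ^ k * KK * W)) * L / (N : ℝ) ^ ζ by ring, div_le_iff₀ hNζ]
      have e2 : 8 * (2 ^ k * KK * W : ℝ) * L * 1 ≤ 8 * (2 ^ k * KK * W : ℝ) * L *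
          (Real.log N ^ a * V) := mul_le_mul_of_nonneg_left hV1 (by positivity)
      have e3 : (8 * (2 ^ k * KK * W) * Real.log N ^ a) * (L * V) ≤ ((N : ℝ) ^ ζ * c) * (L * V) :=
        mul_le_mul_of_nonneg_right h1 (by positivity)
      linarith
    have e2 : ((2 ^ k : ℕ) : ℝ) * (KK * (N : ℝ) ^ υ) ≤ c / 4 * (L * V) := by
      push_cast
      have e3 : (N : ℝ) ^ υ * (N : ℝ) ^ (θ - υ) ≤ L := by
        rw [← Real.rpow_add hN0]
        refine le_trans (le_of_eq ?_) hL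
        congr 1
        ring
      have e4 : (4 * (2 ^ k * KK) * Real.log N ^ a) * ((N : ℝ) ^ υ * V) ≤
          ((N : ℝ) ^ (θ - υ) * c) * ((N : ℝ) ^ υ * V) :=
        mul_le_mul_of_nonneg_right h2 (by positivity)
      have e5 : ((N : ℝ) ^ υ * (N : ℝ) ^ (θ - υ)) * (c * V) ≤ L * (c * V) :=
        mul_le_mul_of_nonneg_right e3 (by positivity)
      have e6 : 4 * (2 ^ k * KK : ℝ) * (N : ℝ) ^ υ * 1 ≤ 4 * (2 ^ k * KK : ℝ) * (N : ℝ) ^ υ *
          (Real.log N ^ a * V) := mul_le_mul_of_nonneg_left hV1 (by positivity)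
      linarith
    rw [mul_add, mul_add]
    linarith
  have hcard : c / 2 * (L * V) ≤ ((Gd \ Bd).card : ℝ) := by
    have h3 : (Gd.card : ℝ) ≤ (Gd \ Bd).card + Bd.card := by
      have h4 : Gd ⊆ (Gd \ Bd) ∪ Bd := by
        intro x hx
        by_cases hb : x ∈ Bd
        · exact mem_union_right _ hb
        · exact mem_union_left _ (mem_sdiff.2 ⟨hx, hb⟩)
      exact_mod_cast (card_le_card h4).trans (card_union_le _ _)
    have h4 : (Bd.card : ℝ) ≤ c / 2 * (L * V) := by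
      refine le_trans ?_ (hbad.trans hbad2)
      rw [hBd]
    linarith
  have hpos : 0 < c / 2 * (L * V) := by positivity
  have hne : (Gd \ Bd).Nonempty := by
    rw [← card_pos]
    have : (0 : ℝ) < ((Gd \ Bd).card : ℝ) := hpos.trans_le hcard
    exact_mod_cast this
  obtain ⟨Hs, hHs, hle⟩ := pigH (2 ^ k) m (Gd \ Bd) (fun K => univ.filter (fun i =>
      0 < WW N ζ υ aw bw (G ((W * (K + t i) + b : ℕ) : ℤ)).natAbs)) hne (by
    intro K hK
    have h3 := (mem_sdiff.1 hK).1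
    rw [hGd] at h3
    unfold Pool.Agent.R498.MT.gd at h3
    rw [mem_filter] at h3
    exact h3.2.2.le)
  refine ⟨Hs, (Gd \ Bd).filter (fun K => Hs ⊆ univ.filter (fun i =>
      0 < WW N ζ υ aw bw (G ((W * (K + t i) + b : ℕ) : ℤ)).natAbs)), hHs, ?_, ?_⟩
  rotate_left
  · intro K hK
    have hK' := mem_filter.1 hK
    obtain ⟨hK1, hK2⟩ := hK'
    obtain ⟨hK3, hK4⟩ := mem_sdiff.1 hK1
    rw [hGd] at hK3
    unfold Pool.Agent.R498.MT.gd at hK3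
    rw [mem_filter] at hK3
    refine ⟨hK3.1, hK3.2.1, ?_⟩
    intro i hi
    have h3 := mem_filter.1 (hK2 hi)
    refine ⟨h3.2, ?_⟩
    intro q hq hqd
    apply hK4
    rw [hBd, mem_filter]
    exact ⟨hK3.1, i, q, hq, hqd⟩
  · rw [div_mul_eq_mul_div, div_le_iff₀ (by positivity)]
    have h3 : (((Gd \ Bd).card : ℕ) : ℝ) ≤ 2 ^ 2 ^ k *
        (((Gd \ Bd).filter (fun K => Hs ⊆ univ.filter (fun i =>
      0 < WW N ζ υ aw bw (G ((W * (K + t i) + b : ℕ) : ℤ)).natAbs))).card : ℝ) := by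
      exact_mod_cast hle
    have h4 : c / 2 * (L * V) * 2 = c * (L * V) := by ring
    linarith

/-- **Clusters of values with few prime factors in narrow progressions.** -/
theorem clusters (P : ℤ[X]) (hmon : P.Monic) (hirr : Irreducible P) (hdeg : 2 ≤ P.natDegree)
    (hρ : ∀ p : ℕ, p.Prime → rt (fun n => P.eval n) p < p) (rr : ℕ) (hrr : 1 ≤ rr) (θ : ℝ) (hθ1 : θ ≤ 1)
    (hθ : P.natDegree < θ * Lam rr) (m : ℕ) :
    ∃ K₀ : ℕ, ∀ HH : Finset ℕ, K₀ ≤ HH.card → ∀ l : ℕ, 2 ≤ l →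
      ∃ B : ℕ, ∀ᶠ N : ℕ in atTop,
      ∃ H ⊆ HH, H.card = m ∧ ∃ n d : ℕ, N < n ∧
        ((n + (l - 1) * d : ℕ) : ℝ) ≤ N + (N : ℝ) ^ θ ∧ 1 ≤ d ∧
        (d : ℝ) ≤ Real.log N ^ B ∧ ∀ j < l, ∀ h ∈ H,
          (P.eval ((n + j * d + h : ℕ) : ℤ)).natAbs.primeFactorsList.length ≤ rr ∧
          ∀ p : ℕ, p.Prime → p ∣ (P.eval ((n + j * d + h : ℕ) : ℤ)).natAbs →
            (N : ℝ) ^ ((P.natDegree / Lam rr + θ) / 8) ≤ p := by
  classical
  have hP : P ≠ 0 := hmon.ne_zero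
  have hg0 : (2 : ℝ) ≤ P.natDegree := by exact_mod_cast hdeg
  have hL1 := Lam_pos rr hrr
  have hL0 : 0 < Lam rr := by linarith
  have hθ0 : 0 < θ := by
    by_contra h
    push Not at h
    nlinarith
  have hgL : P.natDegree / Lam rr < θ := by rwa [div_lt_iff₀ hL0]
  have hgL0 : 0 < P.natDegree / Lam rr := by positivity
  obtain ⟨τ, hτd⟩ : ∃ τ : ℝ, τ = (P.natDegree / Lam rr + θ) / 2 := ⟨_, rfl⟩
  have hτ0 : 0 < τ := by rw [hτd]; positivity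
  have hτθ : τ < θ := by rw [hτd]; linarith
  have hτ8 : (P.natDegree / Lam rr + θ) / 8 = τ / 4 := by rw [hτd]; ring
  rw [hτ8]
  have hτL : (P.natDegree : ℝ) < τ * Lam rr := by
    have h1 : P.natDegree / Lam rr < τ := by rw [hτd]; linarith
    rwa [div_lt_iff₀ hL0] at h1
  obtain ⟨υ, lam, S, hτυ, hυτ, hlam, hgS, hrS, hint⟩ := richertD rr hrr P.natDegree τ (by linarith) hτ0 hτL
  have hυ0 : 0 < υ := by linarith
  obtain ⟨θ', hθ'd⟩ : ∃ θ' : ℝ, θ' = (τ + θ) / 2 := ⟨_, rfl⟩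
  have hτθ' : τ < θ' := by rw [hθ'd]; linarith
  have hθ'θ : θ' < θ := by rw [hθ'd]; linarith
  obtain ⟨R, hRd⟩ : ∃ R : ℝ, R = min (τ / 8) ((θ' - τ) / 4) := ⟨_, rfl⟩
  have hR0 : 0 < R := by rw [hRd]; exact lt_min (by linarith) (by linarith)
  have hR1 : R ≤ τ / 8 := by rw [hRd]; exact min_le_left _ _
  have hR2 : R ≤ (θ' - τ) / 4 := by rw [hRd]; exact min_le_right _ _
  obtain ⟨E, hE⟩ : ∃ E : ℕ, 2 ≤ θ' * E := by
    obtain ⟨E, hE⟩ := exists_nat_ge (2 / θ')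
    refine ⟨E, ?_⟩
    rw [div_le_iff₀ (by linarith)] at hE
    linarith
  have hPd : ∀ p : ℕ, p.Prime → ∃ n : ℤ, ¬ (p : ℤ) ∣ P.eval n := by
    intro p hp
    by_contra hcon
    push Not at hcon
    have h1 := hρ p hp
    unfold rt at h1
    have h2 : (range p).filter (fun r : ℕ => (p : ℤ) ∣ (fun n => P.eval n) (r : ℤ)) = range p :=
      filter_true_of_mem (fun r _ => hcon r)
    rw [h2, card_range] at h1
    omega
  obtain ⟨g₀, hg₀⟩ := Pool.Agent.Y677.RSZ.poly_all P hP hPd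
  obtain ⟨g, hgd⟩ : ∃ g : ℕ, g = g₀ + P.natDegree := ⟨_, rfl⟩
  have hF : Sys g (fun n => P.eval n) := Pool.Agent.Y677.RSZ.Sys.mono hg₀ (by omega)
  have hg1 : 1 ≤ g := by omega
  obtain ⟨A, hA⟩ : ∃ A : ℕ, A = ∑ i ∈ range (P.natDegree + 1), (P.coeff i).natAbs := ⟨_, rfl⟩
  have hGs' : ∀ n : ℕ, P.eval (n : ℤ) ≠ 0 ∧ (P.eval (n : ℤ)).natAbs ≤ (n + 2) ^ (A + P.natDegree) := by
    intro n
    refine ⟨no_root P hmon hirr hdeg _, ?_⟩
    have h1 := eval_le P (n + 2) (by omega) (n : ℤ) (by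
      rw [abs_of_nonneg (by positivity)]
      push_cast
      linarith)
    rw [← hA] at h1
    refine h1.trans ?_
    rw [pow_add]
    apply Nat.mul_le_mul_right
    calc A ≤ 2 ^ A := Nat.lt_two_pow_self.le
      _ ≤ (n + 2) ^ A := Nat.pow_le_pow_left (by omega) _
  have hMer := fun (ε₁ υ η : ℝ) (h1 : 0 < ε₁) (h2 : υ ≤ 1) (h3 : 0 < η) => mer_irr P hmon hirr ε₁ υ η h1 h2 h3
  obtain ⟨b₁, U, Wp, hb0, hUW⟩ := bez P hmon hirr
  obtain ⟨q0, hq0⟩ : ∃ q0 : ℕ, q0 = b₁.natAbs + 1 := ⟨_, rfl⟩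
  obtain ⟨KK, hKK⟩ : ∃ KK : ℕ, KK = P.natDegree := ⟨_, rfl⟩
  have hSq : ∀ q : ℕ, q.Prime → q0 ≤ q → ∀ N H : ℕ,
      ((((Icc 1 H).filter (fun j : ℕ => ((q ^ 2 : ℕ) : ℤ) ∣ P.eval ((N + j : ℕ) : ℤ))).card : ℕ) : ℝ) ≤
        KK * (H * (1 / (q : ℝ) ^ 2) + 1) := by
    intro q hq hqq N H
    have h1 := sq_cnt P b₁ U Wp hUW q hq (by
      intro hd
      have h7 : q ∣ b₁.natAbs := Int.natCast_dvd.1 hd
      have h8 := Nat.le_of_dvd (Int.natAbs_pos.2 hb0) h7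
      omega) KK (by rw [hKK]; exact rt_le_deg P hmon q hq) (N : ℤ) H
    push_cast at h1 ⊢
    exact h1
  obtain ⟨k, W, hW0, hWsq, hWp, hgW, ε₁, c, hε, hεζ, hc, hcore⟩ :=
    core (fun n => P.eval n) (fun n => P.eval n) g hF hF (fun _ _ _ h => h) (A + P.natDegree) hGs' hMer m τ (τ / 4) υ lam
      (lam / υ) θ' R (by linarith) (by linarith)
      (by linarith) (by linarith) hτυ
      hυτ hlam.le (by positivity)
      (by rw [div_mul_cancel₀ _ hυ0.ne']) hint hR0 (by linarith)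
      (by linarith)
  have hW2 : 2 ≤ W := by
    have h1 : 2 ∣ W := hWp 2 Nat.prime_two (by
      have : 1 ≤ g * 2 ^ k := Nat.mul_pos hg1 (by positivity)
      omega)
    exact Nat.le_of_dvd hW0 h1
  refine ⟨W * 2 ^ k, ?_⟩
  intro HH hHH
  obtain ⟨r, t, hrW, ht, hmem⟩ := shifts W (2 ^ k) hW0 HH hHH
  obtain ⟨b, hbW, hb⟩ := exb' hF W hW0 hWsq
  obtain ⟨Y₀, hcore⟩ := hcore t ht b hb
  obtain ⟨g', hS⟩ := PP_sys P hP g hF W b t hWp hb
  obtain ⟨KP, DP, hKD⟩ := Pool.Agent.W123.RU.Poly.eval_bound (PP P W t)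
  obtain ⟨n₀, hn₀⟩ := Pool.Agent.Y677.RSZ.ne_zero_ev (PP P W t) (PP_ne P hP W t)
  set κ : ℝ := c / (2 * 2 ^ 2 ^ k) / W with hκ
  have hW0r : (0 : ℝ) < W := by exact_mod_cast hW0
  have hκ0 : 0 < κ := by positivity
  intro l hl
  obtain ⟨B, H₀, hB⟩ := eng_all l (g' + E * (DP + 1)) (ε₁ / 2) κ hl (by positivity) hκ0
  obtain ⟨NT, hNT⟩ : ∃ NT : ℕ, ∀ i, t i ≤ NT :=
    ⟨univ.sup t, fun i => Finset.le_sup (f := t) (mem_univ i)⟩
  refine ⟨B, ?_⟩
  have hnums := nums2 W r (n₀ + W) KP H₀ q0 Y₀ NT (2 * (g * 2 ^ k) + 1) (A * 4 ^ P.natDegree)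
    (8 * (2 ^ k * KK * W) / c) (4 * (2 ^ k * KK) / c) (τ / 4) υ θ θ' (S - P.natDegree) hW2 hrW (by linarith)
    (by linarith) (by linarith) (by linarith) hθ1 (by linarith)
  filter_upwards [hnums] with N hN
  obtain ⟨n1, n2, n3, n4, n5, n6, n7, n8, n9, n10, L, l1, l2, l3, l4, l5⟩ := hN
  have hNr : (3 : ℝ) ≤ N := by exact_mod_cast n1
  have hN0 : (0 : ℝ) < N := by linarith
  have hN1 : (1 : ℝ) ≤ N := by linarith
  obtain ⟨M, hM⟩ : ∃ M : ℕ, M = (N + r) / W := ⟨_, rfl⟩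
  obtain ⟨z, hz⟩ : ∃ z : ℕ, z + 1 = ⌈(N : ℝ) ^ ε₁⌉₊ := by
    have : 1 ≤ ⌈(N : ℝ) ^ ε₁⌉₊ := Nat.ceil_pos.2 (by positivity)
    exact ⟨⌈(N : ℝ) ^ ε₁⌉₊ - 1, by omega⟩
  have hz1 : (z : ℝ) < (N : ℝ) ^ ε₁ := by
    have h1 := Nat.ceil_lt_add_one (show 0 ≤ (N : ℝ) ^ ε₁ by positivity)
    rw [← hz] at h1
    push_cast at h1
    linarith
  have hz2 : (N : ℝ) ^ ε₁ ≤ z + 1 := by
    have h1 := Nat.le_ceil ((N : ℝ) ^ ε₁)
    rw [← hz] at h1
    push_cast at h1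
    exact h1
  obtain ⟨hgd, hV0, hV1⟩ := hcore N n2 M L z l2 (by rw [hM]; exact l5) hz1 hz2
  obtain ⟨Hs, AA, hHs, hA1, hA2⟩ := many2 (fun n => P.eval n) (fun n => P.eval n) KK q0 W b r M L N k m
    (2 * (g * 2 ^ k) + 1) θ' ε₁ (τ / 4) υ lam (lam / υ) c
    (Vp (fun n => P.eval n) W b z t) hSq hW0 n1 n5 t hc hV0 hV1 hgd l2 n9 n10
  -- the progression
  have hbds : ∀ K ∈ Ioc M (M + L), N + r < W * K + b ∧ W * K + b ≤ N + r + W * L + b ∧
      W * K + b ≤ 3 * N := by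
    intro K hK
    rw [mem_Ioc] at hK
    have h1 : N + r < W * (M + 1) := by
      rw [hM]
      exact Nat.lt_mul_div_succ (N + r) hW0
    have h2 : W * (M + 1) ≤ W * K := Nat.mul_le_mul_left _ (by omega)
    have h3 : W * K ≤ W * (M + L) := Nat.mul_le_mul_left _ hK.2
    have h4 : W * M ≤ N + r := by rw [hM]; exact Nat.mul_div_le _ _
    have h5 : W * (M + L) = W * M + W * L := by ring
    refine ⟨by omega, by omega, by omega⟩
  have hWL : ((N : ℝ)) ^ θ' ≤ ((W * L : ℕ) : ℝ) := by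
    refine l2.trans ?_
    have : L ≤ W * L := Nat.le_mul_of_pos_left _ hW0
    exact_mod_cast this
  have hWL1 : 1 ≤ W * L := by
    have h1 : (1 : ℝ) ≤ ((W * L : ℕ) : ℝ) := le_trans (Real.one_le_rpow hN1 (by linarith)) hWL
    exact_mod_cast h1
  have hWLr : (1 : ℝ) ≤ ((W * L : ℕ) : ℝ) := by exact_mod_cast hWL1
  have hWLN : ((W * L : ℕ) : ℝ) ≤ N := by exact_mod_cast l4
  obtain ⟨a, d, hd1, hd2, had⟩ := hB (fun n => (PP P W t).eval n) (W * M + b) (W * L)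
    (AA.image (fun K => W * K + b)) (Pool.Agent.Y677.RSZ.Sys.mono hS (by omega)) l3
    (by
      intro n hn
      rw [mem_Ioc] at hn
      have h4 : W * M ≤ N + r := by rw [hM]; exact Nat.mul_div_le _ _
      have h6 : N + r < W * (M + 1) := by
        rw [hM]
        exact Nat.lt_mul_div_succ (N + r) hW0
      have h7 : W * (M + 1) = W * M + W := by ring
      have hn1 : n ≤ 3 * N := by omega
      have hn2 : N ≤ n + W := by omega
      refine ⟨?_, ?_⟩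
      · exact hn₀ n (by omega)
      · have h8 := size_P2 (PP P W t) KP DP N (W * L) E θ' (by linarith) hE hKD (by omega) n4 hWL n (by
          refine le_trans ?_ n6
          have : n + 1 ≤ 3 * N + W * NT + 1 := by omega
          exact_mod_cast this)
        refine h8.trans ?_
        exact pow_le_pow_right₀ (by exact_mod_cast hWL1) (by omega))
    (by
      intro x hx
      rw [mem_image] at hx
      obtain ⟨K, hK, rfl⟩ := hx
      have h1 := (hA2 K hK).1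
      rw [mem_Ioc] at h1 ⊢
      have h2 : W * (M + 1) ≤ W * K := Nat.mul_le_mul_left _ (by omega)
      have h3 : W * K ≤ W * (M + L) := Nat.mul_le_mul_left _ h1.2
      have h5 : W * (M + L) = W * M + W * L := by ring
      have h7 : W * (M + 1) = W * M + W := by ring
      constructor <;> omega)
    (by
      intro x hx p hp hpH hdvd
      rw [mem_image] at hx
      obtain ⟨K, hK, rfl⟩ := hx
      obtain ⟨i, hi⟩ := (PP_dvd P W b t p hp K).1 hdvd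
      refine (hA2 K hK).2.1 p hp ?_ i hi
      refine hpH.trans_lt ?_
      calc ((W * L : ℕ) : ℝ) ^ (ε₁ / 2) ≤ (N : ℝ) ^ (ε₁ / 2) :=
            Real.rpow_le_rpow (by positivity) hWLN (by positivity)
        _ < (N : ℝ) ^ ε₁ := Real.rpow_lt_rpow_of_exponent_lt (by linarith) (by linarith))
    (by
      rw [card_image_of_injective _ (fun K K' hKK => by
        have h1 : W * K + b = W * K' + b := hKK
        have h2 : W * K = W * K' := by omega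
        exact Nat.eq_of_mul_eq_mul_left hW0 h2)]
      refine le_trans ?_ hA1
      have hzWL : z ≤ W * L := by
        have h1 : (z : ℝ) ≤ ((W * L : ℕ) : ℝ) := by
          refine hz1.le.trans (le_trans ?_ hWL)
          exact Real.rpow_le_rpow_of_exponent_le hN1 (by linarith)
        exact_mod_cast h1
      have h1 := PP_V P g hF W b z (W * L) t hzWL
      calc κ * ((W * L : ℕ) * V (fun n => (PP P W t).eval n) 1 (W * L)) ≤
          κ * ((W * L : ℕ) * Vp (fun n => P.eval n) W b z t) := by gcongr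
        _ = c / (2 * 2 ^ 2 ^ k) * (L * Vp (fun n => P.eval n) W b z t) := by
            rw [hκ]
            push_cast
            field_simp)
  have hpt : ∀ j < l, ∃ K ∈ AA, W * K + b = a + j * d := by
    intro j hj
    have h1 := had j hj
    rw [mem_image] at h1
    obtain ⟨K, hK, h2⟩ := h1
    exact ⟨K, hK, h2⟩
  obtain ⟨K0, hK0, hK0a⟩ := hpt 0 (by omega)
  rw [zero_mul, add_zero] at hK0a
  obtain ⟨K1, hK1, hK1a⟩ := hpt (l - 1) (by omega)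
  have hb0 := hbds K0 (hA2 K0 hK0).1
  have hb1 := hbds K1 (hA2 K1 hK1).1
  rw [hK0a] at hb0
  rw [hK1a] at hb1
  refine ⟨Hs.image (fun i => W * t i + r), ?_, ?_, a - r, d, by omega, ?_, hd1, ?_, ?_⟩
  · intro h hh
    rw [mem_image] at hh
    obtain ⟨i, _, rfl⟩ := hh
    exact hmem i
  · rw [card_image_of_injective _ (fun i j hij => by
      have h1 : W * t i + r = W * t j + r := hij
      have h2 : W * t i = W * t j := by omega
      exact ht (Nat.eq_of_mul_eq_mul_left hW0 h2))]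
    exact hHs
  · have h1 : a - r + (l - 1) * d ≤ N + ⌊(N : ℝ) ^ θ⌋₊ := by
      have h2 : W * (L + 1) = W * L + W := by ring
      omega
    have h2 : ((a - r + (l - 1) * d : ℕ) : ℝ) ≤ N + (⌊(N : ℝ) ^ θ⌋₊ : ℝ) := by
      exact_mod_cast h1
    have h3 : (⌊(N : ℝ) ^ θ⌋₊ : ℝ) ≤ (N : ℝ) ^ θ :=
      Nat.floor_le (by positivity)
    linarith
  · refine hd2.trans ?_
    apply pow_le_pow_left₀ (Real.log_nonneg hWLr)
    exact Real.log_le_log (by linarith) hWLN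
  · intro j hj h hh
    rw [mem_image] at hh
    obtain ⟨i, hi, rfl⟩ := hh
    obtain ⟨K, hK, hKa⟩ := hpt j hj
    have e : a - r + j * d + (W * t i + r) = W * (K + t i) + b := by
      have h1 := pt_eq W b r K (t i) (a + j * d) hKa (by omega)
      omega
    rw [e]
    obtain ⟨hK1', hK2', hK3'⟩ := hA2 K hK
    obtain ⟨hw, hsq⟩ := hK3' i hi
    have hbK := hbds K hK1'
    have hx : W * (K + t i) + b + 1 ≤ 4 * N := by
      have h1 : W * t i ≤ W * NT := Nat.mul_le_mul_left _ (hNT i)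
      have h2 : W * (K + t i) = W * K + W * t i := by ring
      omega
    have hsize : (((P.eval ((W * (K + t i) + b : ℕ) : ℤ)).natAbs : ℕ) : ℝ) ≤ (N : ℝ) ^ S := by
      have h1 := eval_le P (4 * N) (by omega) ((W * (K + t i) + b : ℕ) : ℤ) (by
        rw [abs_of_nonneg (by positivity)]
        exact_mod_cast (by omega : W * (K + t i) + b ≤ 4 * N))
      rw [← hA] at h1
      calc (((P.eval ((W * (K + t i) + b : ℕ) : ℤ)).natAbs : ℕ) : ℝ) ≤ A * ((4 * N : ℕ) : ℝ) ^ P.natDegree := by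
            exact_mod_cast h1
        _ = (A * 4 ^ P.natDegree) * (N : ℝ) ^ P.natDegree := by
            push_cast
            rw [mul_pow]
            ring
        _ ≤ (N : ℝ) ^ (S - P.natDegree) * (N : ℝ) ^ P.natDegree := by gcongr
        _ = _ := by
            rw [← Real.rpow_natCast (N : ℝ) P.natDegree, ← Real.rpow_add hN0]
            congr 1
            ring
    have halm := almost N (by omega) (τ / 4) υ lam S rr hτυ hυ0 (by linarith) hlam hrS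
      (P.eval ((W * (K + t i) + b : ℕ) : ℤ)).natAbs
      (Int.natAbs_ne_zero.2 (no_root P hmon hirr hdeg _)) hsize hw (fun q hq hqd => hsq q hq (Int.natCast_dvd.2 hqd))
    exact ⟨halm.1, halm.2⟩

end Pool.Agent.Zk41.P4
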