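import Pool.Agent.Zk41.P4.Abel
import Pool.Agent.N842.TX.Cnt
import Pool.Agent.Y822.Lin
import Pool.Agent.R498.MT.QGen

set_option autoImplicit false

namespace Pool.Agent.Zk41.P4

open Finset NumberField Polynomial Filter Topology
open Pool.Agent.N842.TX (nr cp root_pit split nf ev_congr)
open Pool.Agent.W23.DC
open Pool.Agent.Y677.RSZ (rt)
open Pool.Agent.W378.DC.TMP (pr_eq)

/-- the irreducible factors over `ℚ` of an irreducible polynomial -/
theorem nf_rat (G : ℤ[X]) (hG : G.Monic) (hirr : Irreducible G) : nf ℚ G = 1 := by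
  unfold nf
  have hprim : G.IsPrimitive := hG.isPrimitive
  have h1 : Irreducible (G.map (Int.castRingHom ℚ)) := (IsPrimitive.Int.irreducible_iff_irreducible_map_cast hprim).1 hirr
  have hm : (G.map (Int.castRingHom ℚ)).Monic := hG.map _
  rw [Nat.card_eq_one_iff_unique]
  constructor
  · constructor
    rintro ⟨P, hP1, hP2, hP3⟩ ⟨Q, hQ1, hQ2, hQ3⟩
    have e1 : P = G.map (Int.castRingHom ℚ) :=
      eq_of_monic_of_associated hP1 hm (hP2.associated_of_dvd h1 hP3)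
    have e2 : Q = G.map (Int.castRingHom ℚ) :=
      eq_of_monic_of_associated hQ1 hm (hQ2.associated_of_dvd h1 hQ3)
    exact Subtype.ext (e1.trans e2.symm)
  · exact ⟨⟨G.map (Int.castRingHom ℚ), hm, h1, dvd_rfl⟩⟩

theorem homs_rat (p : ℕ) : Nat.card (𝓞 ℚ →+* ZMod p) = 1 := by
  rw [Nat.card_eq_one_iff_unique]
  constructor
  · constructor
    intro f g
    have h : f.comp (Rat.ringOfIntegersEquiv.symm : ℤ →+* 𝓞 ℚ) = g.comp (Rat.ringOfIntegersEquiv.symm : ℤ →+* 𝓞 ℚ) :=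
      RingHom.ext_int _ _
    ext x
    have h2 := RingHom.congr_fun h (Rat.ringOfIntegersEquiv x)
    rw [RingHom.comp_apply, RingHom.comp_apply] at h2
    have e : (Rat.ringOfIntegersEquiv.symm : ℤ →+* 𝓞 ℚ) (Rat.ringOfIntegersEquiv x) = x :=
      Rat.ringOfIntegersEquiv.symm_apply_apply x
    rw [e] at h2
    exact h2
  · exact ⟨(Int.castRingHom (ZMod p)).comp (Rat.ringOfIntegersEquiv : 𝓞 ℚ →+* ℤ)⟩

/-- the prime number theorem for the roots of a monic irreducible polynomial -/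
theorem nr_tendsto (G : ℤ[X]) (hG : G.Monic) (hirr : Irreducible G) :
    Tendsto (fun T : ℕ => (∑ p ∈ (range (T + 1)).filter Nat.Prime, (nr G p : ℝ) * Real.log p) / T) atTop (𝓝 1) := by
  classical
  obtain ⟨S, hS1, hS2, B, hB⟩ := split ℚ G hG
  rw [nf_rat G hG hirr] at hS1
  obtain ⟨g, rfl⟩ := card_eq_one.1 hS1
  have h1 := root_pit g (hS2 g (mem_singleton_self g)).1 (hS2 g (mem_singleton_self g)).2
  refine ev_congr (a := fun p => (cp g p : ℝ) * Real.log p) (B := B) (fun p hp hBp => ?_) h1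
  have h2 := hB p hp hBp
  rw [homs_rat, sum_singleton, Nat.cast_one, one_mul] at h2
  rw [h2]

theorem nr_rt (G : ℤ[X]) (p : ℕ) (hp : p.Prime) : nr G p = rt (fun n => G.eval n) p := by
  classical
  have : Fact p.Prime := ⟨hp⟩
  unfold nr rt
  rw [Nat.card_eq_fintype_card, Fintype.card_subtype]
  have key : ∀ n : ℤ, G.eval₂ (Int.castRingHom (ZMod p)) (n : ZMod p) = ((G.eval n : ℤ) : ZMod p) := by
    intro n
    rw [← eval_map, eval_intCast_map]
    simp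
  apply card_bij' (i := fun (x : ZMod p) _ => x.val) (j := fun (n : ℕ) _ => (n : ZMod p))
  · intro x hx
    rw [mem_filter] at hx
    rw [mem_filter, mem_range]
    refine ⟨ZMod.val_lt x, ?_⟩
    rw [← ZMod.intCast_zmod_eq_zero_iff_dvd, ← key]
    have := hx.2
    rw [Int.cast_natCast, ZMod.natCast_zmod_val]
    exact this
  · intro n hn
    rw [mem_filter, mem_range] at hn
    rw [mem_filter]
    refine ⟨mem_univ _, ?_⟩
    have h1 := (ZMod.intCast_zmod_eq_zero_iff_dvd _ p).2 hn.2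
    rw [← key, Int.cast_natCast] at h1
    exact h1
  · intro x _
    exact ZMod.natCast_zmod_val x
  · intro n hn
    rw [mem_filter, mem_range] at hn
    exact ZMod.val_cast_of_lt hn.1

/-- **Mertens' theorem for the roots of a monic irreducible polynomial**, in short intervals of exponents -/
theorem mer_irr (G : ℤ[X]) (hG : G.Monic) (hirr : Irreducible G) (ε₁ υ η : ℝ)
    (hε : 0 < ε₁) (hυ : υ ≤ 1) (hη : 0 < η) : ∃ Y0 : ℕ, ∀ Y : ℕ, Y0 ≤ Y →
      Mer (pr Y ε₁ υ) (tt Y) (fun p => (rt (fun n => G.eval n) p : ℝ) / p) ε₁ υ η := by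
  classical
  have hε1 : ε₁ ≤ 1 ∨ 1 < ε₁ := le_or_gt _ _
  rcases hε1 with hε1 | hε1
  swap
  · refine ⟨0, fun Y _ a b ha hab hb => ?_⟩
    exfalso
    linarith
  obtain ⟨N1, hN1⟩ := Pool.Agent.Y822.Lin.mer_of ε₁ υ (η / 2) hε hυ (by linarith)
  -- the error term
  have hX : (X : ℤ[X]).Monic := monic_X
  have t1 := nr_tendsto G hG hirr
  have t2 := nr_tendsto X monic_X irreducible_X
  have hnX : ∀ p : ℕ, p.Prime → nr (X : ℤ[X]) p = 1 := by
    intro p hp
    rw [nr_rt X p hp]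
    unfold rt
    rw [card_eq_one]
    refine ⟨0, ?_⟩
    ext n
    rw [mem_filter, mem_range, mem_singleton]
    simp only [eval_X]
    constructor
    · rintro ⟨h1, h2⟩
      by_contra h3
      have h4 : p ∣ n := by exact_mod_cast h2
      exact absurd (Nat.le_of_dvd (Nat.pos_of_ne_zero h3) h4) (by omega)
    · rintro rfl
      exact ⟨hp.pos, by simp⟩
  obtain ⟨e, he⟩ : ∃ e : ℕ → ℝ, ∀ n : ℕ, e n = if n.Prime then ((nr G n : ℝ) - 1) * Real.log n else 0 := ⟨_, fun _ => rfl⟩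
  have t3 : Tendsto (fun T : ℕ => (∑ n ∈ range (T + 1), e n) / T) atTop (𝓝 0) := by
    have t4 := t1.sub t2
    rw [sub_self] at t4
    refine t4.congr fun T => ?_
    rw [← sub_div, ← sum_sub_distrib, sum_filter]
    congr 1
    apply sum_congr rfl
    intro n _
    rw [he]
    split_ifs with h
    · rw [hnX n h]
      push_cast
      ring
    · rfl
  obtain ⟨κ, hκ⟩ : ∃ κ : ℝ, κ = η / 2 / (2 / (ε₁ * Real.log 2) + Real.log (1 / ε₁) + 1) := ⟨_, rfl⟩
  have hl2 : 0 < Real.log 2 := Real.log_pos (by norm_num)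
  have hl1 : 0 ≤ Real.log (1 / ε₁) := Real.log_nonneg (by rw [le_div_iff₀ hε]; linarith)
  have hden : 0 < 2 / (ε₁ * Real.log 2) + Real.log (1 / ε₁) + 1 := by positivity
  have hκ0 : 0 < κ := by rw [hκ]; positivity
  obtain ⟨n1, hn1⟩ := Metric.tendsto_atTop.1 t3 κ hκ0
  have ev1 : ∀ᶠ Y : ℕ in atTop, ((n1 : ℝ) + 3) ≤ (Y : ℝ) ^ ε₁ :=
    ((tendsto_rpow_atTop hε).comp tendsto_natCast_atTop_atTop).eventually_ge_atTop _
  obtain ⟨Y1, hY1⟩ := eventually_atTop.1 (ev1.and (eventually_ge_atTop 3))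
  refine ⟨max N1 Y1, fun Y hY a b ha hab hb => ?_⟩
  obtain ⟨e1, e2⟩ := hY1 Y ((le_max_right _ _).trans hY)
  have m1 := hN1 Y ((le_max_left _ _).trans hY) a b ha hab hb
  have hYr : (3 : ℝ) ≤ Y := by exact_mod_cast e2
  have hY0 : (0 : ℝ) < Y := by linarith
  have hY1r : (1 : ℝ) < Y := by linarith
  have hb1 : b ≤ 1 := hb.trans hυ
  have hlY : 0 < Real.log Y := Real.log_pos hY1r
  rw [Pool.Agent.W23.DC.pr_sub Y ε₁ υ a b ha hb, pr_eq (by omega) hb1] at m1 ⊢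
  have hmono : (Y : ℝ) ^ a ≤ (Y : ℝ) ^ b := Real.rpow_le_rpow_of_exponent_le hY1r.le hab
  have ha' : (Y : ℝ) ^ ε₁ ≤ (Y : ℝ) ^ a := Real.rpow_le_rpow_of_exponent_le hY1r.le ha
  have hYb : (Y : ℝ) ^ b ≤ Y := by
    calc (Y : ℝ) ^ b ≤ (Y : ℝ) ^ (1 : ℝ) := Real.rpow_le_rpow_of_exponent_le hY1r.le hb1
      _ = Y := Real.rpow_one _
  have hca : 1 ≤ ⌈(Y : ℝ) ^ a⌉₊ := Nat.ceil_pos.2 (by positivity)
  have hcb : 1 ≤ ⌈(Y : ℝ) ^ b⌉₊ := Nat.ceil_pos.2 (by positivity)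
  have hAB : ⌈(Y : ℝ) ^ a⌉₊ - 1 ≤ ⌈(Y : ℝ) ^ b⌉₊ - 1 := Nat.sub_le_sub_right (Nat.ceil_mono hmono) 1
  have hBY : ⌈(Y : ℝ) ^ b⌉₊ ≤ Y := Nat.ceil_le.2 hYb
  have hAl : (Y : ℝ) ^ a ≤ ((⌈(Y : ℝ) ^ a⌉₊ - 1 + 1 : ℕ) : ℝ) := by
    rw [Nat.sub_add_cancel hca]
    exact Nat.le_ceil _
  have hBl : (((⌈(Y : ℝ) ^ b⌉₊ - 1 + 1 : ℕ)) : ℝ) ≤ Y := by
    rw [Nat.sub_add_cancel hcb]
    exact_mod_cast hBY
  set A := ⌈(Y : ℝ) ^ a⌉₊ - 1 with hA
  set B := ⌈(Y : ℝ) ^ b⌉₊ - 1 with hB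
  have hA2 : n1 + 2 ≤ A := by
    have h1 : ((n1 : ℝ) + 3) ≤ ((A + 1 : ℕ) : ℝ) := (e1.trans ha').trans hAl
    push_cast at h1
    have h2 : (n1 : ℝ) + 2 ≤ A := by linarith
    exact_mod_cast h2
  have hsum : ∑ p ∈ (Ioc A B).filter Nat.Prime, (rt (fun n => G.eval n) p : ℝ) / p =
      ∑ p ∈ (Ioc A B).filter Nat.Prime, 1 / (p : ℝ) + ∑ n ∈ Ioc A B, e n / (n * Real.log n) := by
    have h1 : ∑ n ∈ Ioc A B, e n / (n * Real.log n) = ∑ p ∈ (Ioc A B).filter Nat.Prime, ((rt (fun n => G.eval n) p : ℝ) - 1) / p := by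
      rw [sum_filter]
      apply sum_congr rfl
      intro n hn
      rw [mem_Ioc] at hn
      rw [he]
      split_ifs with h
      · rw [nr_rt G n h]
        have h3 : (0 : ℝ) < Real.log n := Real.log_pos (by exact_mod_cast (by omega : 1 < n))
        have h4 : (n : ℝ) ≠ 0 := by exact_mod_cast (by omega : n ≠ 0)
        field_simp
      · simp
    rw [h1, ← sum_add_distrib]
    apply sum_congr rfl
    intro p _
    ring
  rw [hsum]
  have hab2 := abel_log e κ hκ0.le A (by omega) B hAB (by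
    intro n h1 h2
    have h3 := hn1 n (by omega)
    rw [Real.dist_eq, sub_zero, abs_div, Nat.abs_cast, div_lt_iff₀ (by exact_mod_cast (by omega : 0 < n))] at h3
    exact h3.le)
  have hlA : ε₁ * Real.log Y ≤ Real.log ((A + 1 : ℕ) : ℝ) := by
    rw [← Real.log_rpow hY0]
    exact Real.log_le_log (by positivity) (ha'.trans hAl)
  have hlA0 : 0 < ε₁ * Real.log Y := by positivity
  have hlA1 : 0 < Real.log ((A + 1 : ℕ) : ℝ) := hlA0.trans_le hlA
  have hlB : Real.log ((B + 1 : ℕ) : ℝ) ≤ Real.log Y := Real.log_le_log (by positivity) hBl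
  have hlB1 : 0 < Real.log ((B + 1 : ℕ) : ℝ) := by
    apply Real.log_pos
    exact_mod_cast (by omega : 1 < B + 1)
  have g1 : 2 / Real.log ((A + 1 : ℕ) : ℝ) ≤ 2 / (ε₁ * Real.log 2) := by
    apply div_le_div_of_nonneg_left (by norm_num) (by positivity)
    refine le_trans ?_ hlA
    apply mul_le_mul_of_nonneg_left _ hε.le
    exact Real.log_le_log (by norm_num) (by linarith)
  have g2 : Real.log (Real.log ((B + 1 : ℕ) : ℝ)) - Real.log (Real.log ((A + 1 : ℕ) : ℝ)) ≤ Real.log (1 / ε₁) := by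
    have h1 : Real.log (Real.log ((B + 1 : ℕ) : ℝ)) ≤ Real.log (Real.log Y) := Real.log_le_log hlB1 hlB
    have h2 : Real.log (ε₁ * Real.log Y) ≤ Real.log (Real.log ((A + 1 : ℕ) : ℝ)) := Real.log_le_log hlA0 hlA
    rw [Real.log_mul hε.ne' hlY.ne'] at h2
    rw [one_div, Real.log_inv]
    linarith
  have g3 : |∑ n ∈ Ioc A B, e n / (n * Real.log n)| ≤ η / 2 := by
    refine hab2.trans ?_
    calc _ ≤ κ * (2 / (ε₁ * Real.log 2) + Real.log (1 / ε₁) + 1) := by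
          apply mul_le_mul_of_nonneg_left _ hκ0.le
          linarith
      _ = η / 2 := by
          rw [hκ]
          field_simp
  rw [abs_le] at m1 g3 ⊢
  constructor <;> linarith [m1.1, m1.2, g3.1, g3.2]

end Pool.Agent.Zk41.P4
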