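import Pool.Agent.Zk41.P4.Low
import Pool.Agent.Zk41.PY.C

/-! Szemerédi's theorem relative to the integers at which a polynomial has few prime factors. -/

set_option autoImplicit false

namespace Pool.Agent.Zk41.P4

open Finset Polynomial Filter
open Pool.Agent.Y677.RSZ (rt ev_log V)
open Pool.Agent.TH423.SH (PS)
open Pool.Agent.Zk41.PY (fn AdmP pol)
open Pool.Agent.K3h19.RV (Lam)

/-- the coefficients of a shifted polynomial -/
theorem coeff_shift (F : ℤ[X]) : ∃ A : ℕ, ∀ (N : ℕ) (Y : ℤ) (i : ℕ), 1 ≤ N → |Y| ≤ N →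
    ((F.comp (X + C Y)).coeff i).natAbs ≤ A * N ^ F.natDegree := by
  obtain ⟨a, ha⟩ : ∃ a : ℕ → ℕ, ∀ i, a i = ∑ j ∈ range ((hasseDeriv i F).natDegree + 1), ((hasseDeriv i F).coeff j).natAbs :=
    ⟨_, fun _ => rfl⟩
  refine ⟨∑ i ∈ range (F.natDegree + 1), a i, fun N Y i hN hY => ?_⟩
  have e : F.comp (X + C Y) = taylor Y F := rfl
  by_cases hi : i < F.natDegree + 1
  · rw [e, taylor_coeff]
    have h1 := eval_le (hasseDeriv i F) N hN Y hY
    rw [← ha] at h1
    refine h1.trans ?_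
    apply Nat.mul_le_mul
    · exact single_le_sum (f := a) (fun _ _ => Nat.zero_le _) (mem_range.2 hi)
    · apply Nat.pow_le_pow_right hN
      exact (natDegree_hasseDeriv_le F i).trans (Nat.sub_le _ _)
  · rw [e, coeff_eq_zero_of_natDegree_lt (by rw [natDegree_taylor]; omega)]
    simp

open Classical in
/-- **Szemerédi's theorem for Richert's numbers**, in all short intervals, with small differences -/
theorem rich_sz (F : ℤ[X]) (hF : F.Monic) (hirr : Irreducible F) (hg : 2 ≤ F.natDegree)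
    (hρ : ∀ p : ℕ, p.Prime → rt (fun n => F.eval n) p < p) (δ θ c : ℝ) (hδ : 0 < δ) (hθ0 : 0 < θ) (hc : 0 < c) (l : ℕ) :
    ∃ B N₀ : ℕ, ∀ N : ℕ, N₀ ≤ N → ∀ (Y : ℤ) (H : ℕ), -(N : ℤ) ≤ Y → Y + H ≤ N →
      (N : ℝ) ^ θ ≤ H → ∀ S ⊆ Icc 1 H, (∀ j ∈ S, ∀ p : ℕ, p.Prime → p ∣ (F.eval (Y + (j : ℤ))).natAbs → (N : ℝ) ^ δ ≤ p) →
        c * (H / Real.log H) ≤ S.card →
        ∃ a d : ℕ, 1 ≤ d ∧ (d : ℝ) ≤ Real.log N ^ B ∧ ∀ i < l, a + i * d ∈ S := by
  obtain ⟨c₁, C₁, hc₁, hC₁, HV⟩ := loc_irr F hirr (by omega) F.natDegree (by omega)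
    (fun p hp => ⟨rt_le_deg F hF p hp, hρ p hp⟩)
  obtain ⟨A, hA⟩ := coeff_shift F
  obtain ⟨E, hE⟩ : ∃ E : ℕ, (F.natDegree : ℝ) + 1 ≤ θ * E := by
    obtain ⟨E, hE⟩ := exists_nat_ge (((F.natDegree : ℝ) + 1) / θ)
    refine ⟨E, ?_⟩
    rw [div_le_iff₀ hθ0] at hE
    linarith
  obtain ⟨B, H₀, hpol⟩ := pol F.natDegree l E (δ / 2) (c / C₁) (by linarith) (by positivity)
  have hcast : Tendsto (fun N : ℕ => (N : ℝ)) atTop atTop := tendsto_natCast_atTop_atTop
  have v1 : ∀ᶠ N : ℕ in atTop, (H₀ : ℝ) + 3 ≤ (N : ℝ) ^ θ :=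
    ((tendsto_rpow_atTop hθ0).comp hcast).eventually_ge_atTop _
  have v2 : ∀ᶠ N : ℕ in atTop, (2 : ℝ) ≤ Real.log N := (Real.tendsto_log_atTop.comp hcast).eventually_ge_atTop _
  obtain ⟨N₁, hN₁⟩ := eventually_atTop.1 (v1.and (v2.and (eventually_ge_atTop (A + 3))))
  refine ⟨2 * B, N₁, fun N hN Y H hY1 hY2 hH S hS hSr hSc => ?_⟩
  obtain ⟨w1, w3, w2⟩ := hN₁ N hN
  have hN3 : (3 : ℝ) ≤ N := by exact_mod_cast (by omega : 3 ≤ N)
  have hN0 : (0 : ℝ) < N := by linarith
  have hN1 : (1 : ℝ) ≤ N := by linarith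
  have hHH : H₀ + 3 ≤ H := by
    have h1 : ((H₀ + 3 : ℕ) : ℝ) ≤ H := by
      push_cast
      exact w1.trans hH
    exact_mod_cast h1
  have hH0 : (0 : ℝ) < H := by exact_mod_cast (by omega : 0 < H)
  have hH1 : (1 : ℝ) ≤ H := by exact_mod_cast (by omega : 1 ≤ H)
  have hlH : 0 < Real.log H := Real.log_pos (by exact_mod_cast (by omega : 1 < H))
  have hH2N : (H : ℝ) ≤ 2 * N := by
    have h1 : (H : ℤ) ≤ 2 * N := by omega
    exact_mod_cast h1
  obtain ⟨P, hP⟩ : ∃ P : ℤ[X], P = F.comp (X + C Y) := ⟨_, rfl⟩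
  have hPev : ∀ n : ℤ, fn P n = F.eval (Y + n) := by
    intro n
    unfold fn
    rw [hP, eval_comp]
    simp only [eval_add, eval_X, eval_C]
    rw [add_comm]
  have hPrt : ∀ p : ℕ, p.Prime → rt (fn P) p = rt (fun n => F.eval n) p := by
    intro p hp
    rw [← rt_shift F Y p hp.pos, ← hP]
    rfl
  have hPd : P.natDegree ≤ F.natDegree := by
    rw [hP]
    have e : F.comp (X + C Y) = taylor Y F := rfl
    rw [e, natDegree_taylor]
  have hadm : AdmP P := by
    intro p hp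
    by_contra hcon
    push Not at hcon
    have h1 := hρ p hp
    rw [← hPrt p hp] at h1
    unfold rt fn at h1
    have h2 : (range p).filter (fun r : ℕ => (p : ℤ) ∣ P.eval (r : ℤ)) = range p :=
      filter_true_of_mem (fun r _ => hcon r)
    rw [h2, card_range] at h1
    omega
  have hYN : |Y| ≤ N := by
    rw [abs_le]
    constructor <;> omega
  have hNE : (N : ℝ) ^ (F.natDegree + 1) ≤ (H : ℝ) ^ E := by
    calc (N : ℝ) ^ (F.natDegree + 1) ≤ ((N : ℝ) ^ θ) ^ E := by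
          rw [← Real.rpow_natCast ((N : ℝ) ^ θ), ← Real.rpow_mul hN0.le, ← Real.rpow_natCast]
          apply Real.rpow_le_rpow_of_exponent_le hN1
          push_cast
          exact hE
      _ ≤ _ := pow_le_pow_left₀ (by positivity) hH _
  have hcoef : ∀ i, |P.coeff i| ≤ (H : ℤ) ^ E := by
    intro i
    have h1 := hA N Y i (by omega) hYN
    rw [← hP] at h1
    have h2 : (P.coeff i).natAbs ≤ N ^ (F.natDegree + 1) := by
      refine h1.trans ?_
      rw [pow_succ, mul_comm]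
      exact Nat.mul_le_mul_left _ (by omega)
    have h3 : N ^ (F.natDegree + 1) ≤ H ^ E := by exact_mod_cast hNE
    have h4 : (((P.coeff i).natAbs : ℕ) : ℤ) ≤ ((H ^ E : ℕ) : ℤ) := by exact_mod_cast h2.trans h3
    rw [Int.natCast_natAbs] at h4
    push_cast at h4
    exact h4
  have hSI : S ⊆ Ioc 0 (0 + H) := by
    intro x hx
    have := mem_Icc.1 (hS hx)
    rw [mem_Ioc]
    omega
  have hV : (H : ℝ) * V (fn P) 1 H ≤ H * (C₁ / Real.log H) := by
    apply mul_le_mul_of_nonneg_left _ hH0.le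
    refine le_trans (le_of_eq ?_) (HV H (by omega)).2
    unfold V
    apply prod_congr
    · unfold PS
      ext q
      simp only [mem_filter, mem_Icc, Nat.dvd_one]
      constructor
      · rintro ⟨h1, h2, -⟩
        exact ⟨h1, h2⟩
      · rintro ⟨h1, h2⟩
        exact ⟨h1, h2, h2.ne_one⟩
    · intro q hq
      rw [hPrt q (mem_filter.1 hq).2]
  obtain ⟨a, d, hd1, hd2, hAP⟩ := hpol H (by omega) P 0 hadm hPd hcoef (by positivity)
    (fun n _ => by rw [hPev]; exact no_root F hF hirr hg _) S hSI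
    (by
      intro m hm p hp hpH hpd
      rw [hPev] at hpd
      have h1 := hSr m hm p hp (Int.natCast_dvd.1 hpd)
      have h2 : (H : ℝ) ^ (δ / 2) < (N : ℝ) ^ δ := by
        calc (H : ℝ) ^ (δ / 2) ≤ (2 * (N : ℝ)) ^ (δ / 2) := Real.rpow_le_rpow hH0.le hH2N (by linarith)
          _ < ((N : ℝ) * N) ^ (δ / 2) := Real.rpow_lt_rpow (by positivity) (by nlinarith) (by linarith)
          _ = (N : ℝ) ^ δ := by
              rw [← sq, ← Real.rpow_natCast, ← Real.rpow_mul hN0.le]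
              congr 1
              push_cast
              ring
      linarith)
    (by
      refine le_trans ?_ hSc
      calc c / C₁ * (H * V (fn P) 1 H) ≤ c / C₁ * (H * (C₁ / Real.log H)) :=
            mul_le_mul_of_nonneg_left hV (by positivity)
        _ = c * (H / Real.log H) := by
            field_simp)
  refine ⟨a, d, hd1, hd2.trans ?_, hAP⟩
  have hlN1 : 1 ≤ Real.log N := by
    rw [Real.le_log_iff_exp_le hN0]
    linarith [Real.exp_one_lt_d9]
  have h1 : Real.log H ≤ Real.log N ^ 2 := by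
    have h2 : Real.log H ≤ 2 * Real.log N := by
      calc Real.log H ≤ Real.log ((N : ℝ) * N) := Real.log_le_log hH0 (by nlinarith)
        _ = 2 * Real.log N := by
            rw [Real.log_mul hN0.ne' hN0.ne']
            ring
    nlinarith
  calc Real.log H ^ B ≤ (Real.log N ^ 2) ^ B := pow_le_pow_left₀ hlH.le h1 _
    _ = _ := by rw [← pow_mul]

end Pool.Agent.Zk41.P4
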